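import Pool.Agent.H67.TC.Defs

/-!
# The tilings: refine some blocks of a grid
-/

namespace Pool.H67.TC

open Finset

/-- half-open cube -/
def hc (a : Fin 3 → ℝ) (s : ℝ) : Set (Fin 3 → ℝ) := {x | ∀ i, a i ≤ x i ∧ x i < a i + s}

theorem cube3_eq (a : Fin 3 → ℝ) (s : ℝ) :
    cube3 a s = Set.pi Set.univ (fun i => Set.Icc (a i) (a i + s)) := by
  ext x
  rw [Set.mem_univ_pi]
  exact Iff.rfl

theorem hc_eq (a : Fin 3 → ℝ) (s : ℝ) :
    hc a s = Set.pi Set.univ (fun i => Set.Ico (a i) (a i + s)) := by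
  ext x
  rw [Set.mem_univ_pi]
  exact Iff.rfl

theorem cube3_closed (a : Fin 3 → ℝ) (s : ℝ) : IsClosed (cube3 a s) := by
  rw [cube3_eq]
  exact isClosed_set_pi fun i _ => isClosed_Icc

theorem interior_sub (a : Fin 3 → ℝ) (s : ℝ) : interior (cube3 a s) ⊆ hc a s := by
  rw [cube3_eq, interior_pi_set Set.finite_univ]
  intro x hx i
  have := hx i (Set.mem_univ i)
  simp only [interior_Icc] at this
  exact ⟨this.1.le, this.2⟩

/-- from a half-open partition to a tiling -/
theorem tiling_of_partition {ι : Type} [Fintype ι] (n : ℕ) (hn : Fintype.card ι = n)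
    (s₁ s₂ : ℝ) (h1 : 0 < s₁) (h1' : s₁ < 1) (h2 : 0 < s₂) (h2' : s₂ < 1)
    (a : ι → Fin 3 → ℝ) (s : ι → ℝ) (hs : ∀ i, s i = s₁ ∨ s i = s₂)
    (hin : ∀ i k, 0 ≤ a i k ∧ a i k + s i ≤ 1)
    (hex : ∀ x ∈ hc 0 1, ∃ i, x ∈ hc (a i) (s i))
    (huni : ∀ x ∈ hc 0 1, ∀ i j, x ∈ hc (a i) (s i) → x ∈ hc (a j) (s j) → i = j) :
    TwoSizeTiling n := by
  classical
  have e : Fin n ≃ ι := (Fintype.equivFinOfCardEq hn).symm
  have hsub : ∀ i, hc (a i) (s i) ⊆ hc 0 1 := by
    intro i x hx k
    have h3 := hx k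
    have h4 := hin i k
    constructor
    · simp only [Pi.zero_apply]; linarith
    · simp only [Pi.zero_apply]; linarith
  refine ⟨s₁, s₂, h1, h1', h2, h2', fun i => a (e i), fun i => s (e i), fun i => hs _, ?_, ?_⟩
  · apply Set.Subset.antisymm
    · intro x hx
      obtain ⟨i, hi⟩ := Set.mem_iUnion.1 hx
      intro k
      have h3 := hi k
      have h4 := hin (e i) k
      simp only [Pi.zero_apply]
      constructor <;> linarith
    · have hcl : IsClosed (⋃ i, cube3 (a (e i)) (s (e i))) :=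
        isClosed_iUnion_of_finite fun i => cube3_closed _ _
      have hsub2 : hc 0 1 ⊆ ⋃ i, cube3 (a (e i)) (s (e i)) := by
        intro x hx
        obtain ⟨i, hi⟩ := hex x hx
        rw [Set.mem_iUnion]
        refine ⟨e.symm i, ?_⟩
        rw [Equiv.apply_symm_apply]
        intro k
        exact ⟨(hi k).1, (hi k).2.le⟩
      have h5 : closure (hc 0 1) ⊆ ⋃ i, cube3 (a (e i)) (s (e i)) :=
        closure_minimal hsub2 hcl
      refine Set.Subset.trans ?_ h5
      rw [hc_eq, closure_pi_set, cube3_eq]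
      intro x hx k _
      have h6 := hx k (Set.mem_univ k)
      simp only [Pi.zero_apply, zero_add] at h6 ⊢
      rw [closure_Ico (by norm_num)]
      exact h6
  · intro i j hij
    rw [Set.disjoint_left]
    intro x hxi hxj
    have h3 := interior_sub _ _ hxi
    have h4 := interior_sub _ _ hxj
    exact hij (e.injective (huni x (hsub _ h3) _ _ h3 h4))

/-- number of cells in chosen blocks -/
theorem card_cells (k m M : ℕ) (hk : 0 < k) (hM : k * m ≤ M) (B : Finset (Fin 3 → ℕ))
    (hB : ∀ b ∈ B, ∀ i, b i < m) :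
    ((Fintype.piFinset (fun _ : Fin 3 => range M)).filter
      (fun v => (fun i => v i / k) ∈ B)).card = B.card * k ^ 3 := by
  classical
  have hfib := Finset.card_eq_sum_card_fiberwise
    (s := (Fintype.piFinset (fun _ : Fin 3 => range M)).filter
      (fun v => (fun i => v i / k) ∈ B)) (f := fun (v : Fin 3 → ℕ) i => v i / k) (t := B)
    (fun v hv => (Finset.mem_filter.1 hv).2)
  rw [hfib, ← smul_eq_mul, ← Finset.sum_const]
  apply Finset.sum_congr rfl
  intro b hb
  have : ((Fintype.piFinset (fun _ : Fin 3 => range M)).filter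
      (fun v => (fun i => v i / k) ∈ B)).filter (fun v => (fun i => v i / k) = b) =
      Fintype.piFinset (fun i => Finset.Ico (k * b i) (k * b i + k)) := by
    ext v
    rw [Finset.mem_filter, Finset.mem_filter, Fintype.mem_piFinset, Fintype.mem_piFinset]
    constructor
    · rintro ⟨_, h⟩ i
      have h1 : v i / k = b i := congrFun h i
      rw [Finset.mem_Ico, ← h1]
      constructor
      · exact Nat.mul_div_le _ _
      · have := Nat.lt_mul_div_succ (v i) hk
        rw [mul_add, mul_one] at this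
        exact this
    · intro h
      have h1 : (fun i => v i / k) = b := by
        funext i
        have h2 := Finset.mem_Ico.1 (h i)
        apply Nat.div_eq_of_lt_le
        · rw [mul_comm]; exact h2.1
        · rw [add_mul, one_mul, mul_comm]; exact h2.2
      refine ⟨⟨fun i => ?_, by rw [h1]; exact hb⟩, h1⟩
      rw [Finset.mem_range]
      have h2 := (Finset.mem_Ico.1 (h i)).2
      have h3 := hB b hb i
      have h4 : k * (b i + 1) ≤ k * m := Nat.mul_le_mul_left k h3
      rw [mul_add, mul_one] at h4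
      omega
  rw [this, Fintype.card_piFinset]
  simp

theorem floor_div_eq (x : ℝ) (k : ℕ) : ⌊x / k⌋₊ = ⌊x⌋₊ / k := Nat.floor_div_natCast x k

theorem tile (N l x n : ℕ) (hl : 0 < l) (hN : 3 ≤ N) (hx : x ≤ (N / (l + 1)) ^ 3)
    (hn : n + x * (3 * l ^ 2 + 3 * l + 1) = N ^ 3) : TwoSizeTiling n := by
  classical
  set m := N / (l + 1) with hm
  -- choose x blocks
  have hcardP : (Fintype.piFinset (fun _ : Fin 3 => range m)).card = m ^ 3 := by
    rw [Fintype.card_piFinset]; simp
  obtain ⟨B, hBs, hBc⟩ := Finset.exists_subset_card_eq (s := Fintype.piFinset (fun _ : Fin 3 => range m))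
    (n := x) (by rw [hcardP]; exact hx)
  have hB : ∀ b ∈ B, ∀ i, b i < m := fun b hb i =>
    Finset.mem_range.1 (Fintype.mem_piFinset.1 (hBs hb) i)
  set U := (Fintype.piFinset (fun _ : Fin 3 => range N)).filter
      (fun u => ¬ (fun i => u i / (l + 1)) ∈ B) with hU
  set V := (Fintype.piFinset (fun _ : Fin 3 => range (l * m))).filter
      (fun v => (fun i => v i / l) ∈ B) with hV
  have hVc : V.card = x * l ^ 3 := by
    rw [hV, card_cells l m (l * m) hl (le_refl _) B hB, hBc]
  have hUc : U.card + x * (l + 1) ^ 3 = N ^ 3 := by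
    have h1 := card_cells (l + 1) m N (by omega) (by rw [hm]; exact Nat.mul_div_le _ _) B hB
    have h2 := Finset.card_filter_add_card_filter_not (s := Fintype.piFinset (fun _ : Fin 3 => range N))
      (fun u => (fun i => u i / (l + 1)) ∈ B)
    rw [h1, hBc, Fintype.card_piFinset] at h2
    simp only [card_range, prod_const, card_univ, Fintype.card_fin] at h2
    rw [← h2, hU]; ring
  have hNpos : (0 : ℝ) < N := by positivity
  have hlpos : (0 : ℝ) < l := by exact_mod_cast hl
  have hl1 : (1 : ℝ) ≤ l := by exact_mod_cast hl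
  have hN3 : (3 : ℝ) ≤ N := by exact_mod_cast hN
  have hcard : Fintype.card (U ⊕ V) = n := by
    rw [Fintype.card_sum, Fintype.card_coe, Fintype.card_coe, hVc]
    have e1 : x * (l + 1) ^ 3 = x * l ^ 3 + x * (3 * l ^ 2 + 3 * l + 1) := by ring
    omega
  -- scale factors
  set c : ℝ := l * N / (l + 1) with hc'
  have hcpos : 0 < c := by positivity
  have key1 : ∀ (y : ℝ) (u : ℕ), 0 ≤ y → ((u : ℝ) / N ≤ y ∧ y < (u : ℝ) / N + 1 / N ↔ ⌊N * y⌋₊ = u) := by
    intro y u hy
    rw [Nat.floor_eq_iff (by positivity)]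
    rw [← add_div, div_le_iff₀ hNpos, lt_div_iff₀ hNpos, mul_comm y]
  have key2 : ∀ (y : ℝ) (v : ℕ), 0 ≤ y → ((v : ℝ) / c ≤ y ∧ y < (v : ℝ) / c + 1 / c ↔ ⌊c * y⌋₊ = v) := by
    intro y v hy
    rw [Nat.floor_eq_iff (by positivity)]
    rw [← add_div, div_le_iff₀ hcpos, lt_div_iff₀ hcpos, mul_comm y]
  have key3 : ∀ y : ℝ, ⌊N * y⌋₊ / (l + 1) = ⌊c * y⌋₊ / l := by
    intro y
    have h1 := floor_div_eq (N * y) (l + 1)
    have h2 := floor_div_eq (c * y) l
    rw [← h1, ← h2]
    congr 1
    rw [hc']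
    push_cast
    field_simp
  apply tiling_of_partition (ι := U ⊕ V) n hcard (1 / N) (1 / c) (by positivity)
    (by rw [div_lt_one hNpos]; linarith) (by positivity)
    (by
      rw [div_lt_one hcpos, hc', lt_div_iff₀ (by positivity)]
      nlinarith)
    (fun i => Sum.elim (fun u k => (u.1 k : ℝ) / N) (fun v k => (v.1 k : ℝ) / c) i)
    (fun i => Sum.elim (fun _ => 1 / (N : ℝ)) (fun _ => 1 / c) i)
  · rintro (i | i)
    · left; rfl
    · right; rfl
  · rintro (⟨u, hu⟩ | ⟨v, hv⟩) k
    · simp only [Sum.elim_inl]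
      have h1 := Fintype.mem_piFinset.1 (Finset.mem_filter.1 hu).1 k
      rw [Finset.mem_range] at h1
      refine ⟨by positivity, ?_⟩
      rw [← add_div, div_le_one hNpos]
      exact_mod_cast h1
    · simp only [Sum.elim_inr]
      have h1 := Fintype.mem_piFinset.1 (Finset.mem_filter.1 hv).1 k
      rw [Finset.mem_range] at h1
      refine ⟨by positivity, ?_⟩
      rw [← add_div, div_le_one hcpos, hc', le_div_iff₀ (by positivity)]
      have h2 : v k + 1 ≤ l * m := h1
      have h3 : (l + 1) * m ≤ N := by rw [hm]; exact Nat.mul_div_le _ _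
      have h4 : (v k + 1) * (l + 1) ≤ l * N := by
        calc (v k + 1) * (l + 1) ≤ (l * m) * (l + 1) := Nat.mul_le_mul_right _ h2
          _ = l * ((l + 1) * m) := by ring
          _ ≤ l * N := Nat.mul_le_mul_left _ h3
      exact_mod_cast h4
  · intro y hy
    have hy0 : ∀ k, 0 ≤ y k := fun k => by have := (hy k).1; simpa using this
    have hy1 : ∀ k, y k < 1 := fun k => by have := (hy k).2; simpa using this
    by_cases hb : (fun k => ⌊c * y k⌋₊ / l) ∈ B
    · -- fine cube
      have hv : (fun k => ⌊c * y k⌋₊) ∈ V := by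
        rw [hV, Finset.mem_filter, Fintype.mem_piFinset]
        refine ⟨fun k => ?_, hb⟩
        rw [Finset.mem_range]
        have h1 : ⌊c * y k⌋₊ / l < m := hB _ hb k
        have h2 := (Nat.div_lt_iff_lt_mul hl).1 h1
        rw [mul_comm l m]; exact h2
      refine ⟨Sum.inr ⟨_, hv⟩, fun k => ?_⟩
      simp only [Sum.elim_inr]
      exact (key2 (y k) _ (hy0 k)).2 rfl
    · have hu : (fun k => ⌊N * y k⌋₊) ∈ U := by
        rw [hU, Finset.mem_filter, Fintype.mem_piFinset]
        refine ⟨fun k => ?_, ?_⟩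
        · rw [Finset.mem_range, Nat.floor_lt (mul_nonneg hNpos.le (hy0 k))]
          have := hy1 k
          nlinarith
        · have : (fun k => ⌊N * y k⌋₊ / (l + 1)) = fun k => ⌊c * y k⌋₊ / l := by
            funext k; exact key3 (y k)
          rw [this]; exact hb
      refine ⟨Sum.inl ⟨_, hu⟩, fun k => ?_⟩
      simp only [Sum.elim_inl]
      exact (key1 (y k) _ (hy0 k)).2 rfl
  · intro y hy
    have hy0 : ∀ k, 0 ≤ y k := fun k => by have := (hy k).1; simpa using this
    rintro (⟨u, hu⟩ | ⟨v, hv⟩) (⟨u', hu'⟩ | ⟨v', hv'⟩) h h'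
    · congr 2
      funext k
      have h1 : ⌊N * y k⌋₊ = u k := (key1 (y k) _ (hy0 k)).1 (h k)
      have h2 : ⌊N * y k⌋₊ = u' k := (key1 (y k) _ (hy0 k)).1 (h' k)
      rw [← h1, ← h2]
    · exfalso
      have h1 : ∀ k, ⌊N * y k⌋₊ = u k := fun k => (key1 (y k) _ (hy0 k)).1 (h k)
      have h2 : ∀ k, ⌊c * y k⌋₊ = v' k := fun k => (key2 (y k) _ (hy0 k)).1 (h' k)
      apply (Finset.mem_filter.1 hu).2
      have : (fun i => u i / (l + 1)) = fun i => v' i / l := by
        funext k; rw [← h1, ← h2]; exact key3 (y k)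
      rw [this]
      exact (Finset.mem_filter.1 hv').2
    · exfalso
      have h1 : ∀ k, ⌊N * y k⌋₊ = u' k := fun k => (key1 (y k) _ (hy0 k)).1 (h' k)
      have h2 : ∀ k, ⌊c * y k⌋₊ = v k := fun k => (key2 (y k) _ (hy0 k)).1 (h k)
      apply (Finset.mem_filter.1 hu').2
      have : (fun i => u' i / (l + 1)) = fun i => v i / l := by
        funext k; rw [← h1, ← h2]; exact key3 (y k)
      rw [this]
      exact (Finset.mem_filter.1 hv).2
    · congr 2
      funext k
      have h1 : ⌊c * y k⌋₊ = v k := (key2 (y k) _ (hy0 k)).1 (h k)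
      have h2 : ⌊c * y k⌋₊ = v' k := (key2 (y k) _ (hy0 k)).1 (h' k)
      rw [← h1, ← h2]

end Pool.H67.TC
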