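import Pool.Agent.H67.TC.UD

/-!
# Lower bound sieve of Brun–Hooley type
-/

namespace Pool.H67.TC

open Finset

/-- density of roots -/
noncomputable def gd (D : ℕ → ℕ) (p : ℕ) : ℝ := ((rts D p).card : ℝ) / p

noncomputable def Xf (D : ℕ → ℕ) (P : ℕ → Finset ℕ) (k l : ℕ) : ℝ :=
  ∏ j ∈ range k, ∏ p ∈ P j, (1 - idv D l p)

noncomputable def Yf (D : ℕ → ℕ) (P : ℕ → Finset ℕ) (b : ℕ → ℕ) (k l : ℕ) : ℝ :=
  ∏ j ∈ range k, ts (idv D l) (P j) (b j)

noncomputable def Zf (D : ℕ → ℕ) (P : ℕ → Finset ℕ) (b : ℕ → ℕ) : ℕ → ℕ → ℝ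
  | 0, _ => 1
  | k + 1, l => Zf D P b k l * ts (idv D l) (P k) (b k)
      - Yf D P b k l * es (idv D l) (P k) (b k + 1)

noncomputable def up (D : ℕ → ℕ) (P : ℕ → Finset ℕ) (b : ℕ → ℕ) (k : ℕ) : ℝ :=
  ∏ j ∈ range k, ts (gd D) (P j) (b j)

noncomputable def ze (D : ℕ → ℕ) (P : ℕ → Finset ℕ) (b : ℕ → ℕ) : ℕ → ℝ
  | 0 => 1
  | k + 1 => ze D P b k * ts (gd D) (P k) (b k) - up D P b k * es (gd D) (P k) (b k + 1)

theorem idv_nonneg (D : ℕ → ℕ) (l p : ℕ) : 0 ≤ idv D l p := by
  unfold idv; split_ifs <;> norm_num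

theorem idv_le_one (D : ℕ → ℕ) (l p : ℕ) : idv D l p ≤ 1 := by
  unfold idv; split_ifs <;> norm_num

theorem XYZ (D : ℕ → ℕ) (P : ℕ → Finset ℕ) (b : ℕ → ℕ) (hb : ∀ j, Even (b j)) (l : ℕ) :
    ∀ k, Zf D P b k l ≤ Xf D P k l ∧ Xf D P k l ≤ Yf D P b k l ∧ 0 ≤ Xf D P k l := by
  intro k
  induction k with
  | zero => simp [Zf, Xf, Yf]
  | succ k ih =>
    obtain ⟨h1, h2, h3⟩ := ih
    have hx0 : 0 ≤ ∏ p ∈ P k, (1 - idv D l p) :=
      Finset.prod_nonneg fun p _ => by have := idv_le_one D l p; linarith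
    have hy := ts_ge (idv D l) (P k) (fun p _ => idv_nonneg D l p) (fun p _ => idv_le_one D l p)
      (b k) (hb k)
    have hy' := ts_le (idv D l) (P k) (fun p _ => idv_nonneg D l p) (fun p _ => idv_le_one D l p)
      (b k) (hb k)
    have he := es_nonneg (idv D l) (P k) (b k + 1) (fun p _ => idv_nonneg D l p)
    have eX : Xf D P (k + 1) l = Xf D P k l * ∏ p ∈ P k, (1 - idv D l p) := by
      unfold Xf; rw [Finset.prod_range_succ]
    have eY : Yf D P b (k + 1) l = Yf D P b k l * ts (idv D l) (P k) (b k) := by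
      unfold Yf; rw [Finset.prod_range_succ]
    have eZ : Zf D P b (k + 1) l = Zf D P b k l * ts (idv D l) (P k) (b k)
      - Yf D P b k l * es (idv D l) (P k) (b k + 1) := rfl
    rw [eX, eY, eZ]
    refine ⟨?_, ?_, ?_⟩
    · have a1 := mul_le_mul_of_nonneg_right h1 (hx0.trans hy)
      have a2 := mul_le_mul_of_nonneg_right h2 he
      have a3 := mul_le_mul_of_nonneg_left hy' h3
      linarith
    · exact mul_le_mul h2 hy hx0 (h3.trans h2)
    · exact mul_nonneg h3 hx0

theorem UD_Y (D : ℕ → ℕ) (hD : Per D) (P : ℕ → Finset ℕ) (b : ℕ → ℕ)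
    (hP : ∀ j, ∀ p ∈ P j, p.Prime) (hdis : ∀ i j, i ≠ j → Disjoint (P i) (P j))
    (K : ℕ → ℝ) (hK0 : ∀ j, 0 ≤ K j)
    (hK : ∀ j, ∑ k ∈ range (b j + 1), es (fun p => ((rts D p).card : ℝ)) (P j) k ≤ K j)
    (hK' : ∀ j, es (fun p => ((rts D p).card : ℝ)) (P j) (b j + 1) ≤ K j) :
    ∀ k, UD (Yf D P b k) ((range k).biUnion P) (up D P b k) (∏ j ∈ range k, K j) ∧
      UD (Zf D P b k) ((range k).biUnion P) (ze D P b k) ((k + 1) * ∏ j ∈ range k, K j) := by
  intro k
  induction k with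
  | zero =>
    constructor
    · have h0 : Yf D P b 0 = fun _ => 1 := by funext l; simp [Yf]
      rw [h0]
      have := UD.one
      simpa [up] using this
    · have h0 : Zf D P b 0 = fun _ => 1 := by funext l; simp [Zf]
      rw [h0]
      have := UD.one
      simpa [ze] using this
  | succ k ih =>
    obtain ⟨h1, h2⟩ := ih
    have hc : ∀ p ∈ P k, ∀ q ∈ (range k).biUnion P, Nat.Coprime p q := by
      intro p hp q hq
      obtain ⟨j, hj, hq'⟩ := Finset.mem_biUnion.1 hq
      have hj' := Finset.mem_range.1 hj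
      refine (Nat.coprime_primes (hP k p hp) (hP j q hq')).2 ?_
      rintro rfl
      exact Finset.disjoint_left.1 (hdis k j (by omega)) hp hq'
    have hU : (range (k + 1)).biUnion P = (range k).biUnion P ∪ P k := by
      rw [Finset.range_add_one, Finset.biUnion_insert, Finset.union_comm]
    have hprod : 0 ≤ ∏ j ∈ range k, K j := Finset.prod_nonneg fun j _ => hK0 j
    have hk0 : (0 : ℝ) ≤ (k : ℝ) + 1 := by positivity
    rw [hU]
    constructor
    · have a1 := h1.mulTs D hD (P k) (hP k) hc (b k)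
      have a2 := a1.congr (f' := Yf D P b (k + 1)) (μ' := up D P b (k + 1))
        (fun l => by unfold Yf; rw [Finset.prod_range_succ])
        (by
          change up D P b k * ts (gd D) (P k) (b k) = _
          unfold up; rw [Finset.prod_range_succ])
      apply a2.mono (le_refl _)
      rw [Finset.prod_range_succ]
      exact mul_le_mul_of_nonneg_left (hK k) hprod
    · have a1 := h2.mulTs D hD (P k) (hP k) hc (b k)
      have a2 := (h1.mulEs D hD (P k) (hP k) hc (b k + 1)).smul (-1)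
      have a3 := (a1.add a2).congr (f' := Zf D P b (k + 1)) (μ' := ze D P b (k + 1))
        (fun l => by rw [Zf]; ring)
        (by
          change ze D P b k * ts (gd D) (P k) (b k) +
            -1 * (up D P b k * es (gd D) (P k) (b k + 1)) = _
          rw [ze]; ring)
      apply a3.mono (le_refl _)
      rw [Finset.prod_range_succ]
      have b1 := mul_le_mul_of_nonneg_left (hK k) (mul_nonneg hk0 hprod)
      have b2 := mul_le_mul_of_nonneg_left (hK' k) hprod
      rw [abs_neg, abs_one, one_mul]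
      push_cast
      nlinarith [b1, b2]

theorem brun (D : ℕ → ℕ) (hD : Per D) (P : ℕ → Finset ℕ) (b : ℕ → ℕ) (hb : ∀ j, Even (b j))
    (hP : ∀ j, ∀ p ∈ P j, p.Prime) (hdis : ∀ i j, i ≠ j → Disjoint (P i) (P j))
    (K : ℕ → ℝ) (hK0 : ∀ j, 0 ≤ K j)
    (hK : ∀ j, ∑ k ∈ range (b j + 1), es (fun p => ((rts D p).card : ℝ)) (P j) k ≤ K j)
    (hK' : ∀ j, es (fun p => ((rts D p).card : ℝ)) (P j) (b j + 1) ≤ K j) (t L : ℕ) :
    ze D P b t * L - (t + 1) * ∏ j ∈ range t, K j ≤
      (((range L).filter (fun l => ∀ j < t, ∀ p ∈ P j, ¬ p ∣ D l)).card : ℝ) := by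
  have h1 := (UD_Y D hD P b hP hdis K hK0 hK hK' t).2 1 0 L one_pos
    (fun p _ => Nat.coprime_one_left p)
  have h2 : (range L).filter (fun l => l ≡ 0 [MOD 1]) = range L := by
    apply Finset.filter_true_of_mem
    intro l _
    exact Nat.modEq_one
  rw [h2] at h1
  have h3 := (abs_le.1 h1).1
  simp only [Nat.cast_one, div_one] at h3
  have h4 : ∑ l ∈ range L, Zf D P b t l ≤ ∑ l ∈ range L, Xf D P t l :=
    Finset.sum_le_sum fun l _ => (XYZ D P b hb l t).1
  have h5 : ∑ l ∈ range L, Xf D P t l =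
      (((range L).filter (fun l => ∀ j < t, ∀ p ∈ P j, ¬ p ∣ D l)).card : ℝ) := by
    rw [Finset.card_eq_sum_ones, Nat.cast_sum, Finset.sum_filter]
    apply Finset.sum_congr rfl
    intro l _
    split_ifs with h
    · unfold Xf
      rw [Nat.cast_one]
      apply Finset.prod_eq_one
      intro j hj
      apply Finset.prod_eq_one
      intro p hp
      have := h j (Finset.mem_range.1 hj) p hp
      simp [idv, this]
    · push Not at h
      obtain ⟨j, hj, p, hp, hd⟩ := h
      unfold Xf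
      apply Finset.prod_eq_zero (Finset.mem_range.2 hj)
      apply Finset.prod_eq_zero hp
      simp [idv, hd]
  linarith

theorem ze_ge (D : ℕ → ℕ) (P : ℕ → Finset ℕ) (b : ℕ → ℕ) (hb : ∀ j, Even (b j))
    (hg0 : ∀ j, ∀ p ∈ P j, gd D p < 1)
    (V ε : ℕ → ℝ) (hV : ∀ j, 0 < V j) (hV' : ∀ j, V j ≤ ∏ p ∈ P j, (1 - gd D p))
    (hε : ∀ j, es (gd D) (P j) (b j + 1) ≤ ε j * V j) :
    ∀ t, up D P b t * (1 - ∑ j ∈ range t, ε j) ≤ ze D P b t ∧ ∏ j ∈ range t, V j ≤ up D P b t := by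
  have hgn : ∀ p, 0 ≤ gd D p := fun p => by unfold gd; positivity
  have hG : ∀ j, V j ≤ ts (gd D) (P j) (b j) := fun j =>
    (hV' j).trans (ts_ge (gd D) (P j) (fun p _ => hgn p) (fun p hp => (hg0 j p hp).le) (b j) (hb j))
  have hε0 : ∀ j, 0 ≤ ε j := by
    intro j
    have h1 := es_nonneg (gd D) (P j) (b j + 1) (fun p _ => hgn p)
    by_contra h
    push Not at h
    have := mul_neg_of_neg_of_pos h (hV j)
    linarith [hε j]
  intro t
  induction t with
  | zero => simp [up, ze]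
  | succ t ih =>
    obtain ⟨h1, h2⟩ := ih
    have eU : up D P b (t + 1) = up D P b t * ts (gd D) (P t) (b t) := by
      unfold up; rw [Finset.prod_range_succ]
    have hup : 0 ≤ up D P b t := (Finset.prod_nonneg fun j _ => (hV j).le).trans h2
    have hGt := hG t
    have hG0 : 0 ≤ ts (gd D) (P t) (b t) := (hV t).le.trans hGt
    constructor
    · rw [eU, ze, Finset.sum_range_succ]
      have a1 := mul_le_mul_of_nonneg_right h1 hG0
      have a2 : es (gd D) (P t) (b t + 1) ≤ ε t * ts (gd D) (P t) (b t) :=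
        (hε t).trans (mul_le_mul_of_nonneg_left hGt (hε0 t))
      have a3 := mul_le_mul_of_nonneg_left a2 hup
      nlinarith [a1, a3]
    · rw [eU, Finset.prod_range_succ]
      exact mul_le_mul h2 hGt (hV t).le hup

end Pool.H67.TC
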