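import Pool.Agent.H67.TC.SieveMain

/-!
# Nonzero cubic residues: counting, lifting to prime powers, and the Chinese remainder theorem
-/

namespace Pool.H67.TC

open Finset

open Classical in
/-- the nonzero cubic residues modulo `p` in `[0, p)` -/
noncomputable def Rc (p : ℕ) : Finset ℕ :=
  (range p).filter (fun a => ¬ p ∣ a ∧ ∃ y : ℕ, y ^ 3 ≡ a [MOD p])

theorem mem_Rc {p a : ℕ} : a ∈ Rc p ↔ a < p ∧ ¬ p ∣ a ∧ ∃ y : ℕ, y ^ 3 ≡ a [MOD p] := by
  classical
  unfold Rc
  rw [Finset.mem_filter, Finset.mem_range]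

theorem Rc_card (p : ℕ) (hp : p.Prime) : p ≤ 3 * (Rc p).card + 1 := by
  classical
  haveI := Fact.mk hp
  have h1 : ∀ x ∈ (range p).filter (fun a => ¬ p ∣ a), (x ^ 3) % p ∈ Rc p := by
    intro x hx
    rw [Finset.mem_filter, Finset.mem_range] at hx
    rw [mem_Rc]
    refine ⟨Nat.mod_lt _ hp.pos, ?_, x, (Nat.mod_modEq _ _).symm⟩
    intro h
    rw [Nat.dvd_mod_iff (dvd_refl p)] at h
    exact hx.2 (hp.dvd_of_dvd_pow h)
  have h2 := Finset.card_eq_sum_card_fiberwise h1
  have h3 : ∀ a ∈ Rc p, (((range p).filter (fun a => ¬ p ∣ a)).filter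
      (fun x => (x ^ 3) % p = a)).card ≤ 3 := by
    intro a _
    have h4 : (((range p).filter (fun a => ¬ p ∣ a)).filter
        (fun x => (x ^ 3) % p = a)).card ≤ (Polynomial.nthRoots 3 (a : ZMod p)).toFinset.card := by
      apply Finset.card_le_card_of_injOn (fun x : ℕ => (x : ZMod p))
      · intro x hx
        rw [Finset.mem_coe, Finset.mem_filter] at hx
        rw [Finset.mem_coe, Multiset.mem_toFinset, Polynomial.mem_nthRoots (by norm_num)]
        rw [← hx.2]
        push_cast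
        rw [← Nat.cast_pow, ZMod.natCast_mod]
      · intro x hx y hy hxy
        rw [Finset.mem_coe, Finset.mem_filter, Finset.mem_filter, Finset.mem_range] at hx hy
        simp only at hxy
        rw [ZMod.natCast_eq_natCast_iff] at hxy
        exact Nat.ModEq.eq_of_lt_of_lt hxy hx.1.1 hy.1.1
    refine h4.trans ((Multiset.toFinset_card_le _).trans (Polynomial.card_nthRoots 3 _))
  have h5 : ((range p).filter (fun a => ¬ p ∣ a)).card = p - 1 := by
    have : (range p).filter (fun a => ¬ p ∣ a) = (range p).erase 0 := by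
      ext x
      rw [Finset.mem_filter, Finset.mem_erase, Finset.mem_range]
      constructor
      · rintro ⟨h, h'⟩
        exact ⟨by rintro rfl; exact h' (dvd_zero p), h⟩
      · rintro ⟨h, h'⟩
        exact ⟨h', fun hd => h (Nat.eq_zero_of_dvd_of_lt hd h')⟩
    rw [this, Finset.card_erase_of_mem (Finset.mem_range.2 hp.pos), Finset.card_range]
  have h6 : ∑ a ∈ Rc p, (((range p).filter (fun a => ¬ p ∣ a)).filter
      (fun x => (x ^ 3) % p = a)).card ≤ ∑ a ∈ Rc p, 3 := Finset.sum_le_sum h3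
  rw [Finset.sum_const, smul_eq_mul] at h6
  have h7 := hp.one_lt
  omega

theorem Rc_ratio (p : ℕ) (hp : p.Prime) (h : 5 ≤ p) :
    0 < (Rc p).card ∧ (p : ℝ) / (Rc p).card ≤ 4 := by
  have h1 := Rc_card p hp
  have h2 : 0 < (Rc p).card := by omega
  refine ⟨h2, ?_⟩
  rw [div_le_iff₀ (by exact_mod_cast h2)]
  have : p ≤ 4 * (Rc p).card := by omega
  exact_mod_cast this

/-- `n` is a cube modulo `D` -/
def IsCubeMod (n : ℤ) (D : ℕ) : Prop := ∃ y : ℤ, (D : ℤ) ∣ y ^ 3 - n

theorem cube_lift (p : ℕ) (hp : p.Prime) (h3 : p ≠ 3) (n : ℤ) (hn : ¬ (p : ℤ) ∣ n)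
    (h : IsCubeMod n p) : ∀ k, IsCubeMod n (p ^ k) := by
  have hpI : Prime (p : ℤ) := Nat.prime_iff_prime_int.1 hp
  have key : ∀ k, IsCubeMod n (p ^ (k + 1)) := by
    intro k
    induction k with
    | zero => simpa using h
    | succ k ih =>
      obtain ⟨y, c, hc⟩ := ih
      have hy : ¬ (p : ℤ) ∣ y := by
        intro hy
        apply hn
        have h1 : (p : ℤ) ∣ y ^ 3 := dvd_pow hy (by norm_num)
        have h2 : (p : ℤ) ∣ ((p ^ (k + 1) : ℕ) : ℤ) * c := by
          apply Dvd.dvd.mul_right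
          push_cast
          exact dvd_pow_self _ (by omega)
        have : n = y ^ 3 - ((p ^ (k + 1) : ℕ) : ℤ) * c := by rw [← hc]; ring
        rw [this]
        exact dvd_sub h1 h2
      have hcop : IsCoprime (3 * y ^ 2) (p : ℤ) := by
        rw [isCoprime_comm]
        rw [Prime.coprime_iff_not_dvd hpI]
        intro h1
        rcases hpI.dvd_or_dvd h1 with h1 | h1
        · have h2 : p ∣ 3 := by exact_mod_cast h1
          exact h3 ((Nat.prime_dvd_prime_iff_eq hp Nat.prime_three).1 h2)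
        · exact hy (hpI.dvd_of_dvd_pow h1)
      obtain ⟨u, v, huv⟩ := hcop
      -- choose t with 3 y^2 t ≡ -c mod p
      refine ⟨y + (-(c * u)) * (p : ℤ) ^ (k + 1), ?_⟩
      have e1 : (y + (-(c * u)) * (p : ℤ) ^ (k + 1)) ^ 3 - n =
          (p : ℤ) ^ (k + 1) * c * (1 - u * (3 * y ^ 2)) +
          (p : ℤ) ^ (k + 1 + 1) * ((p : ℤ) ^ k * (3 * y * (c * u) ^ 2) -
            (p : ℤ) ^ k * (p : ℤ) ^ (k + 1) * (c * u) ^ 3) := by
        have : n = y ^ 3 - (p : ℤ) ^ (k + 1) * c := by
          have := hc; push_cast at this; rw [← this]; ring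
        rw [this]; ring
      have e2 : 1 - u * (3 * y ^ 2) = v * p := by rw [← huv]; ring
      rw [e1, e2]
      push_cast
      refine dvd_add ⟨c * v, by ring⟩ (dvd_mul_right _ _)
  intro k
  cases k with
  | zero => exact ⟨0, by simp⟩
  | succ k => exact key k

theorem cube_mul (n : ℤ) (a b : ℕ) (hab : Nat.Coprime a b) (ha : IsCubeMod n a)
    (hb : IsCubeMod n b) : IsCubeMod n (a * b) := by
  obtain ⟨x, hx⟩ := ha
  obtain ⟨y, hy⟩ := hb
  have hc : IsCoprime (a : ℤ) (b : ℤ) := Nat.isCoprime_iff_coprime.2 hab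
  obtain ⟨u, v, huv⟩ := hc
  -- z = x * v * b + y * u * a
  refine ⟨x * (v * b) + y * (u * a), ?_⟩
  push_cast
  apply IsCoprime.mul_dvd ⟨u, v, huv⟩
  · have h1 : (a : ℤ) ∣ (x * (v * b) + y * (u * a)) - x := by
      have : (x * (v * b) + y * (u * a)) - x = a * (u * (y - x)) := by
        have : (v : ℤ) * b = 1 - u * a := by rw [← huv]; ring
        rw [this]; ring
      rw [this]; exact dvd_mul_right _ _
    have h2 : (a : ℤ) ∣ (x * (v * b) + y * (u * a)) ^ 3 - x ^ 3 := by
      exact h1.trans (sub_dvd_pow_sub_pow _ _ 3)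
    have : (x * (v * b) + y * (u * a)) ^ 3 - n =
        ((x * (v * b) + y * (u * a)) ^ 3 - x ^ 3) + (x ^ 3 - n) := by ring
    rw [this]; exact dvd_add h2 hx
  · have h1 : (b : ℤ) ∣ (x * (v * b) + y * (u * a)) - y := by
      have : (x * (v * b) + y * (u * a)) - y = b * (v * (x - y)) := by
        have : (u : ℤ) * a = 1 - v * b := by rw [← huv]; ring
        rw [this]; ring
      rw [this]; exact dvd_mul_right _ _
    have h2 : (b : ℤ) ∣ (x * (v * b) + y * (u * a)) ^ 3 - y ^ 3 := by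
      exact h1.trans (sub_dvd_pow_sub_pow _ _ 3)
    have : (x * (v * b) + y * (u * a)) ^ 3 - n =
        ((x * (v * b) + y * (u * a)) ^ 3 - y ^ 3) + (y ^ 3 - n) := by ring
    rw [this]; exact dvd_add h2 hy

theorem cube_all (n : ℤ) (D : ℕ) (hD : 0 < D)
    (h : ∀ p : ℕ, p.Prime → p ∣ D → ∀ k, IsCubeMod n (p ^ k)) : IsCubeMod n D := by
  induction D using Nat.recOnPosPrimePosCoprime with
  | prime_pow p k hp hk => exact h p hp (dvd_pow_self _ (by omega)) k
  | zero => omega
  | one => exact ⟨0, by simp⟩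
  | coprime a b ha hb hab iha ihb =>
    exact cube_mul n a b hab
      (iha (by omega) fun p hp hd => h p hp (hd.mul_right b))
      (ihb (by omega) fun p hp hd => h p hp (hd.mul_left a))

/-- if `n` is a nonzero cubic residue modulo every prime factor of `Dl l`, then it is a cube
modulo `Dl l` -/
theorem good_cube (l n : ℕ) (h : ∀ p ∈ (Dl l).primeFactors, n % p ∈ Rc p) :
    IsCubeMod n (Dl l) := by
  apply cube_all
  · unfold Dl; omega
  · intro p hp hd
    have hmem : p ∈ (Dl l).primeFactors := by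
      rw [Nat.mem_primeFactors]
      exact ⟨hp, hd, by unfold Dl; omega⟩
    have h1 := mem_Rc.1 (h p hmem)
    obtain ⟨_, h2, y, hy⟩ := h1
    apply cube_lift p hp (by rintro rfl; exact Dl_mod3 l hd)
    · intro h3
      apply h2
      rw [Nat.dvd_mod_iff (dvd_refl p)]
      exact_mod_cast h3
    · refine ⟨y, ?_⟩
      have h4 : y ^ 3 ≡ n [MOD p] := hy.trans (Nat.mod_modEq _ _)
      have h5 := (Nat.modEq_iff_dvd.1 h4.symm)
      push_cast at h5
      exact h5

end Pool.H67.TC
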