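import Mathlib

/-!
# Tilings of the unit cube of `ℝ³` by `n` cubes of at most two sizes
-/

namespace Pool.H67.TC

/-- The closed axis-parallel cube in `ℝ³` with least corner `a` and side length `s`. -/
def cube3 (a : Fin 3 → ℝ) (s : ℝ) : Set (Fin 3 → ℝ) :=
  {x | ∀ i, a i ≤ x i ∧ x i ≤ a i + s}

/-- `TwoSizeTiling n`: there are side lengths `s₁, s₂ ∈ (0, 1)` and a tiling of the unit cube
`[0, 1]³` by exactly `n` cubes, each of side length `s₁` or `s₂`: the `n` closed cubes have union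
`[0, 1]³` and pairwise disjoint interiors. -/
def TwoSizeTiling (n : ℕ) : Prop :=
  ∃ s₁ s₂ : ℝ, 0 < s₁ ∧ s₁ < 1 ∧ 0 < s₂ ∧ s₂ < 1 ∧
    ∃ (a : Fin n → Fin 3 → ℝ) (s : Fin n → ℝ),
      (∀ i, s i = s₁ ∨ s i = s₂) ∧
      (⋃ i, cube3 (a i) (s i)) = cube3 0 1 ∧
      ∀ i j, i ≠ j → Disjoint (interior (cube3 (a i) (s i))) (interior (cube3 (a j) (s j)))

end Pool.H67.TC
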