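import Pool.Agent.H67.TC.Var

/-!
# The exceptional set for the family `RL t`
-/

namespace Pool.H67.TC

open Finset

/-- prime factors of `Dl l` -/
def TT (l : ℕ) : Finset ℕ := (Dl l).primeFactors

theorem TT_mem {t l p : ℕ} (ht : 2 ≤ t) (hl : l ∈ RL t) (hp : p ∈ TT l) :
    p.Prime ∧ 2 ^ (2 ^ t) < p ∧ 5 ≤ p ∧ p ∣ Dl l := by
  have h1 := Nat.mem_primeFactors.1 hp
  have h2 := (mem_RL.1 hl).2.2 p h1.1
  have h3 : 2 ^ (2 ^ t) < p := by
    by_contra h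
    exact h2 (by omega) h1.2.1
  have h4 : 2 ^ 4 ≤ 2 ^ (2 ^ t) := by
    apply Nat.pow_le_pow_right (by norm_num)
    calc 4 = 2 ^ 2 := by norm_num
      _ ≤ 2 ^ t := Nat.pow_le_pow_right (by norm_num) ht
  exact ⟨h1.1, h3, by omega, h1.2.1⟩

theorem Dl_le {t l : ℕ} (hl : l ∈ RL t) : Dl l ≤ 3 * (2 ^ (134 * 2 ^ t)) ^ 2 := by
  have h := (mem_RL.1 hl).2.1
  unfold Dl
  set L := 2 ^ (134 * 2 ^ t)
  nlinarith

theorem TT_prod {t l : ℕ} (hl : l ∈ RL t) :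
    ∏ p ∈ TT l, p ≤ 3 * (2 ^ (134 * 2 ^ t)) ^ 2 := by
  refine le_trans ?_ (Dl_le hl)
  exact Nat.le_of_dvd (by unfold Dl; omega) (Nat.prod_primeFactors_dvd _)

theorem TT_card {t l : ℕ} (ht : 2 ≤ t) (hl : l ∈ RL t) : (TT l).card ≤ 269 := by
  have h1 : (2 ^ (2 ^ t)) ^ (TT l).card ≤ ∏ p ∈ TT l, p :=
    Finset.pow_card_le_prod (s := TT l) (f := fun p => p) (n := 2 ^ (2 ^ t))
      (fun p hp => (TT_mem ht hl hp).2.1.le)
  have h2 := h1.trans (TT_prod hl)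
  have h3 : 3 * (2 ^ (134 * 2 ^ t)) ^ 2 < 2 ^ (270 * 2 ^ t) := by
    have h4 : 4 ≤ 2 ^ t := by
      calc 4 = 2 ^ 2 := by norm_num
        _ ≤ 2 ^ t := Nat.pow_le_pow_right (by norm_num) ht
    calc 3 * (2 ^ (134 * 2 ^ t)) ^ 2 < 2 ^ 2 * (2 ^ (134 * 2 ^ t)) ^ 2 := by
          apply Nat.mul_lt_mul_of_pos_right (by norm_num) (by positivity)
      _ = 2 ^ (2 + 134 * 2 ^ t * 2) := by rw [← pow_mul, ← pow_add]
      _ ≤ 2 ^ (270 * 2 ^ t) := Nat.pow_le_pow_right (by norm_num) (by omega)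
  have h4 : 2 ^ (2 ^ t * (TT l).card) < 2 ^ (270 * 2 ^ t) := by
    rw [pow_mul]; exact h2.trans_lt h3
  have h5 := (Nat.pow_lt_pow_iff_right (by norm_num)).1 h4
  have h6 : 2 ^ t * (TT l).card < 2 ^ t * 270 := by rw [mul_comm (2 ^ t) 270]; exact h5
  have := Nat.lt_of_mul_lt_mul_left h6
  omega

theorem div_count (p L : ℕ) (hp : p.Prime) (z : ℝ) (hz : 0 < z) (hzp : z ≤ p) :
    ∑ l ∈ range L, idv Dl l p ≤ 2 * ((L : ℝ) / z + 1) := by
  have h := (UD.one.mulInd Dl Per_Dl p hp.pos (fun q hq => by simp at hq)).total L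
  have h1 := (abs_le.1 h).2
  simp only [one_mul] at h1
  have h2 : (((rts Dl p).card : ℕ) : ℝ) ≤ 2 := by exact_mod_cast rts_card p hp
  have hp' : (0 : ℝ) < p := by exact_mod_cast hp.pos
  have h3 : (((rts Dl p).card : ℕ) : ℝ) / p * L ≤ 2 * ((L : ℝ) / z) := by
    have hL : (0 : ℝ) ≤ L := by positivity
    calc (((rts Dl p).card : ℕ) : ℝ) / p * L = ((rts Dl p).card : ℕ) * (L / p) := by ring
      _ ≤ 2 * ((L : ℝ) / z) := by
        apply mul_le_mul h2 _ (by positivity) (by norm_num)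
        exact div_le_div_of_nonneg_left hL hz hzp
  linarith

theorem pairs_count (t : ℕ) (ht : 2 ≤ t) :
    ∑ l ∈ RL t, ∑ l' ∈ RL t, (if (TT l ∩ TT l').Nonempty then (1 : ℝ) else 0) ≤
      ((RL t).card : ℝ) * (269 * (2 * ((2 : ℝ) ^ (134 * 2 ^ t) / 2 ^ (2 ^ t) + 1))) := by
  classical
  rw [← nsmul_eq_mul, ← Finset.sum_const]
  apply Finset.sum_le_sum
  intro l hl
  have h1 : ∀ l' ∈ RL t, (if (TT l ∩ TT l').Nonempty then (1 : ℝ) else 0) ≤
      ∑ p ∈ TT l, idv Dl l' p := by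
    intro l' _
    split_ifs with h
    · obtain ⟨p, hp⟩ := h
      rw [Finset.mem_inter] at hp
      have h2 : idv Dl l' p = 1 := by
        unfold idv
        rw [if_pos (Nat.mem_primeFactors.1 hp.2).2.1]
      rw [← h2]
      exact Finset.single_le_sum (f := fun p => idv Dl l' p) (fun p _ => idv_nonneg _ _ _) hp.1
    · exact Finset.sum_nonneg fun p _ => idv_nonneg _ _ _
  refine (Finset.sum_le_sum h1).trans ?_
  rw [Finset.sum_comm]
  have h2 : ∀ p ∈ TT l, ∑ l' ∈ RL t, idv Dl l' p ≤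
      2 * ((2 : ℝ) ^ (134 * 2 ^ t) / 2 ^ (2 ^ t) + 1) := by
    intro p hp
    obtain ⟨hp1, hp2, _, _⟩ := TT_mem ht hl hp
    have h3 : ∑ l' ∈ RL t, idv Dl l' p ≤ ∑ l' ∈ range (2 ^ (134 * 2 ^ t)), idv Dl l' p := by
      apply Finset.sum_le_sum_of_subset_of_nonneg
      · intro l' hl'
        exact Finset.mem_range.2 (mem_RL.1 hl').2.1
      · intro _ _ _; exact idv_nonneg _ _ _
    refine h3.trans ?_
    have h4 := div_count p (2 ^ (134 * 2 ^ t)) hp1 (2 ^ (2 ^ t)) (by positivity)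
      (by exact_mod_cast hp2.le)
    push_cast at h4
    exact h4
  refine (Finset.sum_le_sum h2).trans ?_
  rw [Finset.sum_const, nsmul_eq_mul]
  apply mul_le_mul_of_nonneg_right _ (by positivity)
  exact_mod_cast TT_card ht hl

/-- the main estimate for the number of `n < X` which fail for all `l ∈ RL t` -/
theorem bad_le (t : ℕ) (ht : 12 ≤ t) (X : ℕ) :
    ((bad (RL t) TT X).card : ℝ) ≤
      (X : ℝ) * 2 ^ (35 * t + 552) / 2 ^ (2 ^ t) + 2 ^ (543 + 536 * 2 ^ t) := by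
  set L : ℝ := 2 ^ (134 * 2 ^ t) with hL
  have hL1 : (1 : ℝ) ≤ L := one_le_pow₀ (by norm_num)
  set z : ℝ := 2 ^ (2 ^ t) with hz
  have hz1 : (1 : ℝ) ≤ z := one_le_pow₀ (by norm_num)
  have hzL : z ≤ L := by
    rw [hz, hL]; exact pow_le_pow_right₀ (by norm_num) (by omega)
  have hX : (0 : ℝ) ≤ X := by positivity
  have hc := cheb (RL t) TT X 269 (3 * L ^ 2) (by nlinarith)
    (fun l hl p hp => ⟨(TT_mem (by omega) hl hp).1, (TT_mem (by omega) hl hp).2.2.1⟩)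
    (fun l hl => TT_card (by omega) hl)
    (fun l hl => by
      have := TT_prod hl
      have h2 : ((∏ p ∈ TT l, p : ℕ) : ℝ) ≤ ((3 * (2 ^ (134 * 2 ^ t)) ^ 2 : ℕ) : ℝ) := by
        exact_mod_cast this
      push_cast at h2
      exact h2)
    _ (pairs_count t (by omega))
  rw [← hL, ← hz] at hc
  set c : ℝ := ((RL t).card : ℝ) with hcdef
  have hrc : L / 2 ^ (35 * t + 3) ≤ c := rough_count t ht
  have hc0 : 0 < c := lt_of_lt_of_le (by positivity) hrc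
  set b : ℝ := ((bad (RL t) TT X).card : ℝ) with hb
  have h4p : (4 : ℝ) ^ 269 = 2 ^ 538 := by
    rw [show (4 : ℝ) = 2 ^ 2 by norm_num, ← pow_mul]
  -- divide by c ^ 2
  have h1 : b * c ^ 2 ≤ (X * 4 ^ 269 * (269 * (2 * (L / z + 1))) / c + 3 * 4 ^ 269 * (3 * L ^ 2) ^ 2)
      * c ^ 2 := by
    refine hc.trans (le_of_eq ?_)
    field_simp
  have h2 : b ≤ X * 4 ^ 269 * (269 * (2 * (L / z + 1))) / c + 3 * 4 ^ 269 * (3 * L ^ 2) ^ 2 :=
    le_of_mul_le_mul_right h1 (by positivity)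
  refine h2.trans (add_le_add ?_ ?_)
  · rw [div_le_iff₀ hc0]
    have h3 : L / z + 1 ≤ 2 * (L / z) := by
      have : 1 ≤ L / z := (one_le_div (by linarith)).2 hzL
      linarith
    have h4 : (2 : ℝ) ^ (35 * t + 552) = 2 ^ (35 * t + 3) * 2 ^ 549 := by
      rw [← pow_add]
    have h5 : L ≤ c * 2 ^ (35 * t + 3) := by
      rwa [div_le_iff₀ (by positivity)] at hrc
    calc (X : ℝ) * 4 ^ 269 * (269 * (2 * (L / z + 1)))
        ≤ X * 4 ^ 269 * (269 * (2 * (2 * (L / z)))) := by gcongr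
      _ = X * (4 ^ 269 * (269 * 4)) * (L / z) := by ring
      _ ≤ X * 2 ^ 549 * (L / z) := by
          have e1 : (4 : ℝ) ^ 269 * (269 * 4) ≤ 2 ^ 549 := by
            rw [h4p, show (549 : ℕ) = 538 + 11 by norm_num, pow_add]
            apply mul_le_mul_of_nonneg_left _ (by positivity)
            norm_num
          gcongr
      _ ≤ X * 2 ^ 549 * (c * 2 ^ (35 * t + 3) / z) := by gcongr
      _ = X * 2 ^ (35 * t + 552) / z * c := by rw [h4]; ring
  · have h6 : (2 : ℝ) ^ (543 + 536 * 2 ^ t) = 2 ^ 543 * L ^ 4 := by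
      rw [hL, ← pow_mul, ← pow_add]
      congr 1
      ring
    rw [h6]
    have : 3 * 4 ^ 269 * (3 * L ^ 2) ^ 2 = (27 * 4 ^ 269) * L ^ 4 := by ring
    rw [this]
    apply mul_le_mul_of_nonneg_right _ (by positivity)
    rw [h4p, show (543 : ℕ) = 5 + 538 by norm_num, pow_add]
    apply mul_le_mul_of_nonneg_right _ (by positivity)
    norm_num

end Pool.H67.TC
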