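import Pool.Agent.H67.TC.Tile
import Pool.Agent.H67.TC.Var2

/-!
# If `n` is a cube modulo `(l+1)³ - l³` with `l` small, then the unit cube has a tiling
-/

namespace Pool.H67.TC

open Finset

theorem fit (l n : ℕ) (hl : 0 < l) (hc : IsCubeMod n (Dl l)) (hn : (48 * (l + 1) ^ 3) ^ 3 ≤ n) :
    TwoSizeTiling n := by
  classical
  obtain ⟨y, hy⟩ := hc
  set D := Dl l with hD
  have hD1 : D = 3 * l ^ 2 + 3 * l + 1 := rfl
  have hDpos : 0 < D := by omega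
  have hDk : D ≤ 3 * (l + 1) ^ 2 := by nlinarith
  have hex : ∃ M, n ≤ M ^ 3 := ⟨n, by
    rcases Nat.eq_zero_or_pos n with h | h
    · simp [h]
    · calc n = n ^ 1 := (pow_one n).symm
        _ ≤ n ^ 3 := Nat.pow_le_pow_right h (by norm_num)⟩
  set M := Nat.find hex with hM
  have hM1 : n ≤ M ^ 3 := Nat.find_spec hex
  have hMk : 48 * (l + 1) ^ 3 ≤ M := by
    by_contra h
    push Not at h
    have : M ^ 3 < (48 * (l + 1) ^ 3) ^ 3 := Nat.pow_lt_pow_left h (by norm_num)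
    omega
  have hk3 : 1 ≤ (l + 1) ^ 3 := Nat.one_le_pow _ _ (by omega)
  have hMpos : 0 < M := by omega
  obtain ⟨M', hM'⟩ : ∃ M', M = M' + 1 := ⟨M - 1, by omega⟩
  have hM2 : M' ^ 3 < n := by
    have := Nat.find_min hex (m := M') (by omega)
    omega
  have hDI : (0 : ℤ) < D := by exact_mod_cast hDpos
  set r := ((y - M) % D).toNat with hr
  have hr0 : (0 : ℤ) ≤ (y - M) % D := Int.emod_nonneg _ hDI.ne'
  have hr1 : (r : ℤ) = (y - M) % D := Int.toNat_of_nonneg hr0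
  have hr2 : r < D := by
    have := Int.emod_lt_of_pos (y - M) hDI
    rw [← hr1] at this
    exact_mod_cast this
  set N := M + r with hN
  have hNy : (D : ℤ) ∣ (N : ℤ) - y := by
    refine ⟨-((y - M) / D), ?_⟩
    have := Int.emod_add_mul_ediv (y - M) D
    rw [← hr1] at this
    rw [hN]
    push_cast
    linarith
  have hNn : (D : ℤ) ∣ (N : ℤ) ^ 3 - n := by
    have h1 := hNy.trans (sub_dvd_pow_sub_pow (N : ℤ) y 3)
    have : (N : ℤ) ^ 3 - n = ((N : ℤ) ^ 3 - y ^ 3) + (y ^ 3 - n) := by ring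
    rw [this]
    exact dvd_add h1 hy
  have hnN : n ≤ N ^ 3 := hM1.trans (Nat.pow_le_pow_left (by omega) 3)
  have hNn' : D ∣ N ^ 3 - n := by
    have h1 : ((N ^ 3 - n : ℕ) : ℤ) = (N : ℤ) ^ 3 - n := by
      rw [Nat.cast_sub hnN]; push_cast; rfl
    rw [← h1] at hNn
    exact_mod_cast hNn
  obtain ⟨x, hx⟩ := hNn'
  have hx' : n + x * D = N ^ 3 := by
    rw [mul_comm x D, ← hx]; omega
  have hNle : N ≤ M' + D := by omega
  have hxb : x ≤ 3 * (M' + D) ^ 2 := by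
    have h1 : N ^ 3 ≤ (M' + D) ^ 3 := Nat.pow_le_pow_left hNle 3
    have h2 : x * D ≤ 3 * (M' + D) ^ 2 * D := by
      have h3 : (M' + D) ^ 3 ≤ M' ^ 3 + 3 * (M' + D) ^ 2 * D := by
        have : M' ^ 3 + 3 * (M' + D) ^ 2 * D = (M' + D) ^ 3 + (3 * M' * D ^ 2 + 2 * D ^ 3) := by
          ring
        omega
      omega
    exact Nat.le_of_mul_le_mul_right h2 hDpos
  set q := M / (l + 1) with hq
  have hq1 : M < (l + 1) * (q + 1) := by
    rw [hq]; exact Nat.lt_mul_div_succ M (by omega)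
  have hq2 : 48 * (l + 1) ^ 2 ≤ q := by
    rw [hq, Nat.le_div_iff_mul_le (by omega)]
    calc 48 * (l + 1) ^ 2 * (l + 1) = 48 * (l + 1) ^ 3 := by ring
      _ ≤ M := hMk
  have hk2 : 1 ≤ (l + 1) ^ 2 := Nat.one_le_pow _ _ (by omega)
  have hq3 : M ≤ 2 * (l + 1) * q := by
    have : (l + 1) * (q + 1) ≤ (l + 1) * (2 * q) := Nat.mul_le_mul_left _ (by omega)
    have e : (l + 1) * (2 * q) = 2 * (l + 1) * q := by ring
    omega
  have hk23 : (l + 1) ^ 2 ≤ (l + 1) ^ 3 := Nat.pow_le_pow_right (by omega) (by norm_num)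
  have hMD : M' + D ≤ 2 * M := by omega
  have hfin : x ≤ q ^ 3 := by
    calc x ≤ 3 * (M' + D) ^ 2 := hxb
      _ ≤ 3 * (2 * M) ^ 2 := Nat.mul_le_mul_left _ (Nat.pow_le_pow_left hMD 2)
      _ ≤ 3 * (2 * (2 * (l + 1) * q)) ^ 2 := Nat.mul_le_mul_left _ (Nat.pow_le_pow_left (Nat.mul_le_mul_left _ hq3) 2)
      _ = (48 * (l + 1) ^ 2) * q ^ 2 := by ring
      _ ≤ q * q ^ 2 := Nat.mul_le_mul_right _ hq2
      _ = q ^ 3 := by ring
  have hqN : q ≤ N / (l + 1) := by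
    rw [hq]; exact Nat.div_le_div_right (by omega)
  exact tile N l x n hl (by omega) (hfin.trans (Nat.pow_le_pow_left hqN 3)) hx'

/-- large `n` outside `bad (RL t) TT X` have tilings -/
theorem tiling_of_not_bad (t X n : ℕ) (hnX : n < X) (hn : 48 ^ 3 * 2 ^ (1206 * 2 ^ t) ≤ n)
    (hb : n ∉ bad (RL t) TT X) : TwoSizeTiling n := by
  rw [mem_bad] at hb
  push Not at hb
  obtain ⟨l, hl, h⟩ := hb hnX
  have h1 := mem_RL.1 hl
  apply fit l n h1.1 (good_cube l n h)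
  refine le_trans ?_ hn
  have h2 : l + 1 ≤ 2 ^ (134 * 2 ^ t) := h1.2.1
  calc (48 * (l + 1) ^ 3) ^ 3 = 48 ^ 3 * (l + 1) ^ 9 := by ring
    _ ≤ 48 ^ 3 * (2 ^ (134 * 2 ^ t)) ^ 9 := Nat.mul_le_mul_left _ (Nat.pow_le_pow_left h2 9)
    _ = 48 ^ 3 * 2 ^ (1206 * 2 ^ t) := by rw [← pow_mul]; congr 2; ring

end Pool.H67.TC
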