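import Pool.Agent.H67.TC.Fit

/-!
# The last estimate
-/

namespace Pool.H67.TC

theorem choose_t (t₀ : ℕ) (ht₀ : 0 < t₀) (X : ℕ) (hX : 2 ^ (1300 * 2 ^ t₀) ≤ X) :
    ∃ t, t₀ ≤ t ∧ 2 ^ (1300 * 2 ^ t) ≤ X ∧ X < 2 ^ (1300 * 2 ^ (t + 1)) := by
  classical
  have hex : ∃ t, X < 2 ^ (1300 * 2 ^ (t + 1)) := by
    refine ⟨X, ?_⟩
    calc X < 2 ^ X := Nat.lt_two_pow_self
      _ ≤ 2 ^ (1300 * 2 ^ (X + 1)) := by
        apply Nat.pow_le_pow_right (by norm_num)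
        have h1 : X < 2 ^ X := Nat.lt_two_pow_self
        have h2 : 2 ^ (X + 1) = 2 * 2 ^ X := by ring
        omega
  have h1 : X < 2 ^ (1300 * 2 ^ (Nat.find hex + 1)) := Nat.find_spec hex
  have h12 : t₀ ≤ Nat.find hex := by
    by_contra h
    push Not at h
    have h3 : 2 ^ (1300 * 2 ^ (Nat.find hex + 1)) ≤ 2 ^ (1300 * 2 ^ t₀) := by
      apply Nat.pow_le_pow_right (by norm_num)
      apply Nat.mul_le_mul_left
      exact Nat.pow_le_pow_right (by norm_num) h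
    exact absurd (h1.trans_le (h3.trans hX)) (lt_irrefl _)
  refine ⟨Nat.find hex, h12, ?_, h1⟩
  have h5 := Nat.find_min hex (m := Nat.find hex - 1) (by omega)
  rw [show Nat.find hex - 1 + 1 = Nat.find hex by omega] at h5
  exact not_lt.1 h5

theorem choose_X (t₀ : ℕ) (ht₀ : 0 < t₀) : ∃ X₀ : ℕ, ∀ X : ℕ, X₀ ≤ X →
    ∃ t, t₀ ≤ t ∧ 2 ^ (1300 * 2 ^ t) ≤ X ∧ X < 2 ^ (1300 * 2 ^ (t + 1)) :=
  ⟨2 ^ (1300 * 2 ^ t₀), fun X hX => choose_t t₀ ht₀ X hX⟩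

theorem last_step (t : ℕ) (h12 : 12 ≤ t) (X : ℕ) (h2 : 2 ^ (1300 * 2 ^ t) ≤ X)
    (h1 : X < 2 ^ (1300 * 2 ^ (t + 1))) :
    ((Set.ncard {n : ℕ | n < X ∧ ¬ TwoSizeTiling n} : ℕ) : ℝ) ≤
      (X : ℝ) ^ (1 - 1 / 5200 : ℝ) := by
  classical
  -- the exceptional set
  have hsub : {n : ℕ | n < X ∧ ¬ TwoSizeTiling n} ⊆
      (((Finset.range (48 ^ 3 * 2 ^ (1206 * 2 ^ t))) ∪ bad (RL t) TT X : Finset ℕ) : Set ℕ) := by
    rintro n ⟨hn, hn'⟩
    rw [Finset.mem_coe, Finset.mem_union, Finset.mem_range]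
    by_contra h
    push Not at h
    exact hn' (tiling_of_not_bad t X n hn h.1 h.2)
  have hcard : Set.ncard {n : ℕ | n < X ∧ ¬ TwoSizeTiling n} ≤
      48 ^ 3 * 2 ^ (1206 * 2 ^ t) + (bad (RL t) TT X).card := by
    refine (Set.ncard_le_ncard hsub (Finset.finite_toSet _)).trans ?_
    rw [Set.ncard_coe_finset]
    refine (Finset.card_union_le _ _).trans ?_
    rw [Finset.card_range]
  have hb := bad_le t h12 X
  have hcard' : ((Set.ncard {n : ℕ | n < X ∧ ¬ TwoSizeTiling n} : ℕ) : ℝ) ≤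
      48 ^ 3 * 2 ^ (1206 * 2 ^ t) + ((bad (RL t) TT X).card : ℝ) := by
    exact_mod_cast hcard
  have hX2 : (2 : ℝ) ^ (1300 * 2 ^ t) ≤ X := by exact_mod_cast h2
  have hXpos : (0 : ℝ) < X := lt_of_lt_of_le (by positivity) hX2
  have hpb : 35 * t + 556 ≤ 2 ^ (t - 1) := by
    have key : ∀ s : ℕ, 11 ≤ s → 35 * (s + 1) + 556 ≤ 2 ^ s := by
      intro s hs
      induction s, hs using Nat.le_induction with
      | base => norm_num
      | succ s hs ih =>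
        have e1 : 2 ^ (s + 1) = 2 * 2 ^ s := by ring
        omega
    have := key (t - 1) (by omega)
    rwa [show t - 1 + 1 = t by omega] at this
  have hpt : 2 ^ t = 2 * 2 ^ (t - 1) := by
    rw [← pow_succ']; congr 1; omega
  -- the three terms
  set w := 2 ^ (t - 1) with hw
  rw [hpt] at hX2 hb hcard' h2
  have hA : (48 : ℝ) ^ 3 * 2 ^ (1206 * (2 * w)) ≤ X / 2 ^ w / 4 := by
    rw [div_div, le_div_iff₀ (by positivity)]
    refine le_trans ?_ hX2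
    calc (48 : ℝ) ^ 3 * 2 ^ (1206 * (2 * w)) * (2 ^ w * 4)
        ≤ 2 ^ 17 * 2 ^ (1206 * (2 * w)) * (2 ^ w * 2 ^ 2) := by
          gcongr <;> norm_num
      _ = 2 ^ (17 + 1206 * (2 * w) + (w + 2)) := by rw [← pow_add, ← pow_add, ← pow_add]
      _ ≤ 2 ^ (1300 * (2 * w)) := pow_le_pow_right₀ (by norm_num) (by omega)
  have hB : (X : ℝ) * 2 ^ (35 * t + 552) / 2 ^ (2 * w) ≤ X / 2 ^ w / 4 := by
    rw [div_div, div_le_div_iff₀ (by positivity) (by positivity), mul_assoc]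
    apply mul_le_mul_of_nonneg_left _ hXpos.le
    calc (2 : ℝ) ^ (35 * t + 552) * (2 ^ w * 4) = 2 ^ (35 * t + 552 + (w + 2)) := by
          rw [pow_add _ _ (w + 2), pow_add _ w 2]; norm_num
      _ ≤ 2 ^ (2 * w) := pow_le_pow_right₀ (by norm_num) (by omega)
  have hC : (2 : ℝ) ^ (543 + 536 * (2 * w)) ≤ X / 2 ^ w / 4 := by
    rw [div_div, le_div_iff₀ (by positivity)]
    refine le_trans ?_ hX2
    calc (2 : ℝ) ^ (543 + 536 * (2 * w)) * (2 ^ w * 4) =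
          2 ^ (543 + 536 * (2 * w) + (w + 2)) := by
          rw [pow_add _ _ (w + 2), pow_add _ w 2]; norm_num
      _ ≤ 2 ^ (1300 * (2 * w)) := pow_le_pow_right₀ (by norm_num) (by omega)
  have hsum : ((Set.ncard {n : ℕ | n < X ∧ ¬ TwoSizeTiling n} : ℕ) : ℝ) ≤ X / 2 ^ w := by
    have h5 : (0 : ℝ) ≤ X / 2 ^ w / 4 := by positivity
    linarith
  refine hsum.trans ?_
  -- compare with the power of `X`
  have hXle : (X : ℝ) ≤ 2 ^ (5200 * w) := by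
    have h6 : X ≤ 2 ^ (1300 * 2 ^ (t + 1)) := h1.le
    have h7 : 1300 * 2 ^ (t + 1) = 5200 * w := by
      rw [pow_succ, hpt]; ring
    rw [h7] at h6
    exact_mod_cast h6
  have hroot : (X : ℝ) ^ (1 / 5200 : ℝ) ≤ 2 ^ w := by
    calc (X : ℝ) ^ (1 / 5200 : ℝ) ≤ ((2 : ℝ) ^ (5200 * w)) ^ (1 / 5200 : ℝ) :=
          Real.rpow_le_rpow hXpos.le hXle (by norm_num)
      _ = 2 ^ w := by
          rw [← Real.rpow_natCast, ← Real.rpow_mul (by norm_num), ← Real.rpow_natCast]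
          congr 1
          push_cast
          ring
  rw [Real.rpow_sub hXpos, Real.rpow_one]
  exact div_le_div_of_nonneg_left hXpos.le (Real.rpow_pos_of_pos hXpos _) hroot

end Pool.H67.TC
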