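import Pool.Agent.H67.TC.SieveNum

/-!
# Many values of `3 l ^ 2 + 3 l + 1` without small prime factors
-/

namespace Pool.H67.TC

open Finset

theorem one_sub_ge (g : ℝ) (h1 : g ≤ 2 / 3) (h0 : 0 ≤ g) : Real.exp (-3 * g) ≤ 1 - g := by
  have hpos : 0 < 1 - g := by linarith
  have h2 := Real.one_sub_inv_le_log_of_pos hpos
  have h3 : -3 * g ≤ Real.log (1 - g) := by
    refine le_trans ?_ h2
    rw [show (1 : ℝ) - (1 - g)⁻¹ = -g / (1 - g) by field_simp; ring, le_div_iff₀ hpos]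
    nlinarith
  calc Real.exp (-3 * g) ≤ Real.exp (Real.log (1 - g)) := Real.exp_le_exp.2 h3
    _ = 1 - g := Real.exp_log hpos

theorem PP_gsum (j : ℕ) : ∑ p ∈ PP j, gd Dl p ≤ 8 := by
  have h1 : ∑ p ∈ PP j, gd Dl p ≤ ∑ p ∈ PP j, 2 * ((1 : ℝ) / p) := by
    apply Finset.sum_le_sum
    intro p hp
    have := gd_le p (PP_prime j p hp)
    rw [mul_one_div]; exact this
  rw [← Finset.mul_sum] at h1
  linarith [PP_sum j]

theorem PP_V (j : ℕ) : Real.exp (-24) ≤ ∏ p ∈ PP j, (1 - gd Dl p) := by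
  have h1 : ∏ p ∈ PP j, Real.exp (-3 * gd Dl p) ≤ ∏ p ∈ PP j, (1 - gd Dl p) := by
    apply Finset.prod_le_prod
    · intro p _; exact (Real.exp_pos _).le
    · intro p hp
      exact one_sub_ge _ (gd_le_23 p (PP_prime j p hp) (PP_three j p hp)) (gd_nonneg _ _)
  rw [← Real.exp_sum, ← Finset.mul_sum] at h1
  refine le_trans (Real.exp_le_exp.2 ?_) h1
  linarith [PP_gsum j]

theorem fac_ge (n : ℕ) (hn : 63 ≤ n) : 16 ^ n ≤ n.factorial := by
  induction n, hn using Nat.le_induction with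
  | base => decide
  | succ n hn ih =>
    rw [pow_succ, Nat.factorial_succ]
    nlinarith [Nat.factorial_pos n]

theorem exp24 : Real.exp 24 ≤ 2 ^ 35 := by
  have h1 : Real.exp 24 = Real.exp 1 ^ 24 := by
    rw [← Real.exp_nat_mul]; norm_num
  rw [h1]
  have h2 := Real.exp_one_lt_d9.le
  calc Real.exp 1 ^ 24 ≤ (2.7182818286 : ℝ) ^ 24 := by
        apply pow_le_pow_left₀ (Real.exp_pos _).le h2
    _ ≤ 2 ^ 35 := by norm_num

/-- truncation levels -/
def bb (t j : ℕ) : ℕ := 62 + 2 * (t - 1 - j)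

theorem bb_even (t j : ℕ) : Even (bb t j) := by
  unfold bb; exact ⟨31 + (t - 1 - j), by ring⟩

noncomputable def KK (t j : ℕ) : ℝ := (bb t j + 1 : ℕ) * (1 + 2 * ((PP j).card : ℝ)) ^ (bb t j + 1)

theorem es_card_le (j k m : ℕ) (hk : k ≤ m) :
    es (fun p => ((rts Dl p).card : ℝ)) (PP j) k ≤ (1 + 2 * ((PP j).card : ℝ)) ^ m := by
  have h1 := es_le (fun p => ((rts Dl p).card : ℝ)) (PP j) (fun p _ => by positivity) k
  have h2 : ∑ p ∈ PP j, ((rts Dl p).card : ℝ) ≤ 2 * ((PP j).card : ℝ) := by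
    have : ∑ p ∈ PP j, ((rts Dl p).card : ℝ) ≤ ∑ p ∈ PP j, (2 : ℝ) :=
      Finset.sum_le_sum fun p hp => by exact_mod_cast rts_card p (PP_prime j p hp)
    rw [Finset.sum_const, nsmul_eq_mul] at this
    linarith
  have h0 : 0 ≤ ∑ p ∈ PP j, ((rts Dl p).card : ℝ) := Finset.sum_nonneg fun p _ => by positivity
  have hf : (1 : ℝ) ≤ (k.factorial : ℝ) := by exact_mod_cast Nat.one_le_iff_ne_zero.2 (Nat.factorial_ne_zero k)
  calc es (fun p => ((rts Dl p).card : ℝ)) (PP j) k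
      ≤ (∑ p ∈ PP j, ((rts Dl p).card : ℝ)) ^ k / (k.factorial : ℝ) := h1
    _ ≤ (∑ p ∈ PP j, ((rts Dl p).card : ℝ)) ^ k := div_le_self (by positivity) hf
    _ ≤ (1 + 2 * ((PP j).card : ℝ)) ^ k := by
        apply pow_le_pow_left₀ h0; linarith
    _ ≤ (1 + 2 * ((PP j).card : ℝ)) ^ m := by
        apply pow_le_pow_right₀ _ hk
        have : (0 : ℝ) ≤ ((PP j).card : ℝ) := by positivity
        linarith

theorem KK_le (t j : ℕ) : KK t j ≤ 2 ^ ((2 ^ (j + 1) + 3) * (bb t j + 1)) := by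
  unfold KK
  have h1 : ((bb t j + 1 : ℕ) : ℝ) ≤ 2 ^ (bb t j + 1) := by
    exact_mod_cast (Nat.lt_two_pow_self (n := bb t j + 1)).le
  have h2 : (1 : ℝ) + 2 * ((PP j).card : ℝ) ≤ 2 ^ (2 ^ (j + 1) + 2) := by
    have h3 : ((PP j).card : ℝ) ≤ 2 ^ (2 ^ (j + 1)) := by exact_mod_cast PP_card j
    have h4 : (1 : ℝ) ≤ 2 ^ (2 ^ (j + 1)) := one_le_pow₀ (by norm_num)
    rw [pow_add]
    norm_num
    linarith
  have h0 : (0 : ℝ) ≤ 1 + 2 * ((PP j).card : ℝ) := by positivity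
  calc ((bb t j + 1 : ℕ) : ℝ) * (1 + 2 * ((PP j).card : ℝ)) ^ (bb t j + 1)
      ≤ 2 ^ (bb t j + 1) * (2 ^ (2 ^ (j + 1) + 2)) ^ (bb t j + 1) := by
        apply mul_le_mul h1 (pow_le_pow_left₀ h0 h2 _) (by positivity) (by positivity)
    _ = 2 ^ ((2 ^ (j + 1) + 3) * (bb t j + 1)) := by
        rw [← pow_mul, ← pow_add]; congr 1; ring

theorem exps (t : ℕ) : ∑ j ∈ range t, (2 ^ (j + 1) + 3) * (bb t j + 1) ≤
    130 * 2 ^ t + 3 * t ^ 2 + 182 * t := by
  have key : ∀ t : ℕ, ∑ j ∈ range t, (2 ^ (j + 1) + 3) * (61 + 2 * (t - j)) ≤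
      130 * 2 ^ t + 3 * t ^ 2 + 182 * t := by
    intro t
    induction t with
    | zero => simp
    | succ t ih =>
      rw [Finset.sum_range_succ]
      have h1 : ∑ j ∈ range t, (2 ^ (j + 1) + 3) * (61 + 2 * (t + 1 - j)) =
          ∑ j ∈ range t, (2 ^ (j + 1) + 3) * (61 + 2 * (t - j)) +
          2 * ∑ j ∈ range t, (2 ^ (j + 1) + 3) := by
        rw [Finset.mul_sum, ← Finset.sum_add_distrib]
        apply Finset.sum_congr rfl
        intro j hj
        have := Finset.mem_range.1 hj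
        rw [show t + 1 - j = (t - j) + 1 by omega]
        ring
      have h2 : ∀ t : ℕ, ∑ j ∈ range t, (2 ^ (j + 1) + 3) + 2 = 2 ^ (t + 1) + 3 * t := by
        intro t
        induction t with
        | zero => simp
        | succ t ih2 =>
          rw [Finset.sum_range_succ]
          have : 2 ^ (t + 1 + 1) = 2 * 2 ^ (t + 1) := by ring
          omega
      have h3 := h2 t
      rw [h1, show t + 1 - t = 1 by omega]
      have e1 : 2 ^ (t + 1) = 2 * 2 ^ t := by ring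
      rw [e1] at h3 ⊢
      nlinarith
  refine le_trans (le_of_eq ?_) (key t)
  apply Finset.sum_congr rfl
  intro j hj
  have := Finset.mem_range.1 hj
  unfold bb
  congr 1
  omega

theorem pow_big (t : ℕ) (ht : 12 ≤ t) : 3 * t ^ 2 + 183 * t ≤ 2 ^ t := by
  induction t, ht using Nat.le_induction with
  | base => norm_num
  | succ t ht ih =>
    have e1 : 2 ^ (t + 1) = 2 * 2 ^ t := by ring
    rw [e1]
    nlinarith

open Classical in
/-- the `l < 2 ^ (134 * 2 ^ t)` for which `3 l ^ 2 + 3 l + 1` has no prime factor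
`≤ 2 ^ (2 ^ t)` -/
noncomputable def RL0 (t : ℕ) : Finset ℕ := (range (2 ^ (134 * 2 ^ t))).filter
  (fun l => ∀ p : ℕ, p.Prime → p ≤ 2 ^ (2 ^ t) → ¬ p ∣ Dl l)

theorem mem_RL0 {t l : ℕ} : l ∈ RL0 t ↔ l < 2 ^ (134 * 2 ^ t) ∧
    ∀ p : ℕ, p.Prime → p ≤ 2 ^ (2 ^ t) → ¬ p ∣ Dl l := by
  classical
  unfold RL0
  rw [Finset.mem_filter, Finset.mem_range]

theorem rough_count0 (t : ℕ) (ht : 12 ≤ t) :
    (2 : ℝ) ^ (134 * 2 ^ t) / 2 ^ (35 * t + 2) ≤ ((RL0 t).card : ℝ) := by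
  classical
  have hg0 : ∀ j, ∀ p ∈ PP j, gd Dl p < 1 := fun j p hp =>
    (gd_le_23 p (PP_prime j p hp) (PP_three j p hp)).trans_lt (by norm_num)
  set ε : ℕ → ℝ := fun j => Real.exp 24 * (8 ^ (bb t j + 1) / ((bb t j + 1).factorial : ℝ)) with hε
  have hz := ze_ge Dl PP (bb t) (bb_even t) hg0 (fun _ => Real.exp (-24)) ε
    (fun _ => Real.exp_pos _) PP_V (by
      intro j
      have h1 := es_le (gd Dl) (PP j) (fun p _ => gd_nonneg _ _) (bb t j + 1)
      have h2 : (∑ p ∈ PP j, gd Dl p) ^ (bb t j + 1) ≤ 8 ^ (bb t j + 1) :=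
        pow_le_pow_left₀ (Finset.sum_nonneg fun p _ => gd_nonneg _ _) (PP_gsum j) _
      have h3 : ε j * Real.exp (-24) = 8 ^ (bb t j + 1) / ((bb t j + 1).factorial : ℝ) := by
        simp only [hε]
        rw [mul_assoc, mul_comm, mul_assoc, ← Real.exp_add]; norm_num
      rw [h3]
      refine h1.trans ?_
      gcongr) t
  obtain ⟨hz1, hz2⟩ := hz
  have hεs : ∑ j ∈ range t, ε j ≤ 1 / 2 := by
    have h1 : ∀ j ∈ range t, ε j ≤ (1 / 4) * (1 / 2) ^ (t - 1 - j) := by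
      intro j _
      have hn : 63 ≤ bb t j + 1 := by unfold bb; omega
      have h2 := fac_ge (bb t j + 1) hn
      have h3 : (16 : ℝ) ^ (bb t j + 1) ≤ ((bb t j + 1).factorial : ℝ) := by exact_mod_cast h2
      have h4 : (8 : ℝ) ^ (bb t j + 1) / ((bb t j + 1).factorial : ℝ) ≤ (1 / 2) ^ (bb t j + 1) := by
        have hf : (0 : ℝ) < ((bb t j + 1).factorial : ℝ) := by positivity
        rw [div_le_iff₀ hf]
        calc (8 : ℝ) ^ (bb t j + 1) = (1 / 2) ^ (bb t j + 1) * 16 ^ (bb t j + 1) := by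
              rw [← mul_pow]; norm_num
          _ ≤ (1 / 2) ^ (bb t j + 1) * ((bb t j + 1).factorial : ℝ) := by gcongr
      calc ε j ≤ 2 ^ 35 * (1 / 2) ^ (bb t j + 1) := by
            simp only [hε]
            exact mul_le_mul exp24 h4 (by positivity) (by positivity)
        _ = (2 ^ 35 * (1 / 2) ^ 63) * (1 / 2) ^ (t - 1 - j) * (1 / 2) ^ (t - 1 - j) := by
            unfold bb
            rw [show 62 + 2 * (t - 1 - j) + 1 = 63 + (t - 1 - j) + (t - 1 - j) by ring, pow_add,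
              pow_add]
            ring
        _ ≤ (1 / 4) * (1 / 2) ^ (t - 1 - j) * 1 := by
            apply mul_le_mul
            · apply mul_le_mul_of_nonneg_right _ (by positivity)
              norm_num
            · exact pow_le_one₀ (by norm_num) (by norm_num)
            · positivity
            · positivity
        _ = (1 / 4) * (1 / 2) ^ (t - 1 - j) := mul_one _
    refine (Finset.sum_le_sum h1).trans ?_
    rw [← Finset.mul_sum, Finset.sum_range_reflect (fun i => (1 / 2 : ℝ) ^ i)]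
    have := sum_geometric_two_le t
    linarith
  have hup0 : 0 ≤ up Dl PP (bb t) t :=
    (Finset.prod_nonneg fun _ _ => (Real.exp_pos _).le).trans hz2
  have hV : (1 / 2 : ℝ) ^ (35 * t) ≤ ∏ j ∈ range t, Real.exp (-24) := by
    rw [Finset.prod_const, Finset.card_range, pow_mul]
    apply pow_le_pow_left₀ (by positivity)
    rw [Real.exp_neg, one_div, inv_pow]
    exact inv_anti₀ (Real.exp_pos _) exp24
  have hze : (1 / 2 : ℝ) ^ (35 * t) * (1 / 2) ≤ ze Dl PP (bb t) t := by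
    refine le_trans ?_ hz1
    apply mul_le_mul (hV.trans hz2) (by linarith) (by norm_num) hup0
  have hb := brun Dl Per_Dl PP (bb t) (bb_even t) PP_prime PP_disj (KK t)
    (fun j => by unfold KK; positivity)
    (fun j => by
      have h1 : ∀ k ∈ range (bb t j + 1), es (fun p => ((rts Dl p).card : ℝ)) (PP j) k ≤
          (1 + 2 * ((PP j).card : ℝ)) ^ (bb t j + 1) := fun k hk =>
        es_card_le j k _ (by have := Finset.mem_range.1 hk; omega)
      refine (Finset.sum_le_sum h1).trans ?_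
      rw [Finset.sum_const, Finset.card_range, nsmul_eq_mul]
      exact le_of_eq rfl)
    (fun j => by
      refine (es_card_le j _ _ (le_refl _)).trans ?_
      unfold KK
      have h1 : (1 : ℝ) ≤ ((bb t j + 1 : ℕ) : ℝ) := by exact_mod_cast Nat.succ_pos _
      have h2 : 0 ≤ (1 + 2 * ((PP j).card : ℝ)) ^ (bb t j + 1) := by positivity
      exact le_mul_of_one_le_left h2 h1)
    t (2 ^ (134 * 2 ^ t))
  have hKprod : ((t : ℝ) + 1) * ∏ j ∈ range t, KK t j ≤ 2 ^ (131 * 2 ^ t) := by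
    have h1 : ∏ j ∈ range t, KK t j ≤ ∏ j ∈ range t, (2 : ℝ) ^ ((2 ^ (j + 1) + 3) * (bb t j + 1)) :=
      Finset.prod_le_prod (fun j _ => by unfold KK; positivity) (fun j _ => KK_le t j)
    rw [Finset.prod_pow_eq_pow_sum] at h1
    have h2 : (2 : ℝ) ^ (∑ j ∈ range t, (2 ^ (j + 1) + 3) * (bb t j + 1)) ≤
        2 ^ (130 * 2 ^ t + 3 * t ^ 2 + 182 * t) := pow_le_pow_right₀ (by norm_num) (exps t)
    have h3 : (t : ℝ) + 1 ≤ 2 ^ t := by exact_mod_cast Nat.lt_two_pow_self (n := t)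
    calc ((t : ℝ) + 1) * ∏ j ∈ range t, KK t j
        ≤ 2 ^ t * 2 ^ (130 * 2 ^ t + 3 * t ^ 2 + 182 * t) := by
          apply mul_le_mul h3 (h1.trans h2) _ (by positivity)
          exact Finset.prod_nonneg fun j _ => by unfold KK; positivity
      _ = 2 ^ (t + (130 * 2 ^ t + 3 * t ^ 2 + 182 * t)) := by rw [← pow_add]
      _ ≤ 2 ^ (131 * 2 ^ t) := by
          apply pow_le_pow_right₀ (by norm_num)
          have := pow_big t ht
          omega
  have hsub : (range (2 ^ (134 * 2 ^ t))).filter (fun l => ∀ j < t, ∀ p ∈ PP j, ¬ p ∣ Dl l) ⊆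
      RL0 t := by
    intro l hl
    rw [mem_RL0]
    rw [Finset.mem_filter] at hl
    refine ⟨Finset.mem_range.1 hl.1, fun p hp hle => ?_⟩
    rcases Nat.lt_or_ge p 3 with h | h
    · have : p = 2 := by have := hp.two_le; omega
      rw [this]; exact Dl_mod2 l
    · obtain ⟨j, hj, hj'⟩ := cover_PP t p hp h hle
      exact hl.2 j hj p hj'
  have hcard : (((range (2 ^ (134 * 2 ^ t))).filter
      (fun l => ∀ j < t, ∀ p ∈ PP j, ¬ p ∣ Dl l)).card : ℝ) ≤ ((RL0 t).card : ℝ) := by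
    exact_mod_cast Finset.card_le_card hsub
  refine le_trans ?_ (hb.trans hcard)
  have hL : (((2 : ℕ) ^ (134 * 2 ^ t) : ℕ) : ℝ) = 2 ^ (134 * 2 ^ t) := by push_cast; ring
  rw [hL]
  have h5 : (1 / 2 : ℝ) ^ (35 * t) * (1 / 2) * 2 ^ (134 * 2 ^ t) ≤
      ze Dl PP (bb t) t * 2 ^ (134 * 2 ^ t) :=
    mul_le_mul_of_nonneg_right hze (by positivity)
  have h6 : (2 : ℝ) ^ (134 * 2 ^ t) / 2 ^ (35 * t + 2) * 2 =
      (1 / 2 : ℝ) ^ (35 * t) * (1 / 2) * 2 ^ (134 * 2 ^ t) := by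
    rw [pow_add, one_div, inv_pow]
    field_simp
  have h7 : (2 : ℝ) ^ (131 * 2 ^ t) ≤ (2 : ℝ) ^ (134 * 2 ^ t) / 2 ^ (35 * t + 2) := by
    rw [le_div_iff₀ (by positivity), ← pow_add]
    apply pow_le_pow_right₀ (by norm_num)
    have := pow_big t ht
    omega
  linarith

/-- the positive elements of `RL0 t` -/
noncomputable def RL (t : ℕ) : Finset ℕ := (RL0 t).erase 0

theorem mem_RL {t l : ℕ} : l ∈ RL t ↔ 0 < l ∧ l < 2 ^ (134 * 2 ^ t) ∧
    ∀ p : ℕ, p.Prime → p ≤ 2 ^ (2 ^ t) → ¬ p ∣ Dl l := by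
  unfold RL
  rw [Finset.mem_erase, mem_RL0, Nat.pos_iff_ne_zero]

theorem rough_count (t : ℕ) (ht : 12 ≤ t) :
    (2 : ℝ) ^ (134 * 2 ^ t) / 2 ^ (35 * t + 3) ≤ ((RL t).card : ℝ) := by
  have h0 : 0 ∈ RL0 t := by
    rw [mem_RL0]
    refine ⟨by positivity, fun p hp _ h => ?_⟩
    have : Dl 0 = 1 := by simp [Dl]
    rw [this] at h
    exact hp.one_lt.ne' (Nat.dvd_one.1 h)
  have h1 : (RL0 t).card = (RL t).card + 1 := by
    unfold RL
    rw [Finset.card_erase_of_mem h0]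
    have := Finset.card_pos.2 ⟨0, h0⟩
    omega
  have h2 := rough_count0 t ht
  rw [h1] at h2
  push_cast at h2
  have h3 : (2 : ℝ) ^ (134 * 2 ^ t) / 2 ^ (35 * t + 2) = 2 * (2 ^ (134 * 2 ^ t) / 2 ^ (35 * t + 3)) := by
    rw [show 35 * t + 3 = (35 * t + 2) + 1 by ring, pow_succ (2 : ℝ) (35 * t + 2)]
    field_simp
  have h4 : (1 : ℝ) ≤ 2 ^ (134 * 2 ^ t) / 2 ^ (35 * t + 3) := by
    rw [le_div_iff₀ (by positivity), one_mul]
    apply pow_le_pow_right₀ (by norm_num)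
    have := pow_big t ht
    omega
  linarith

end Pool.H67.TC
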