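import Pool.Agent.H67.TC.Brun

/-!
# Numerical input for the sieve: the blocks `(2^(2^j), 2^(2^(j+1))]`
-/

namespace Pool.H67.TC

open Finset

/-- the difference of consecutive cubes -/
def Dl (l : ℕ) : ℕ := 3 * l ^ 2 + 3 * l + 1

theorem Per_Dl : Per Dl := by
  intro p a b h
  have h1 : Dl a ≡ Dl b [MOD p] := by
    unfold Dl
    exact (((h.pow 2).mul_left 3).add (h.mul_left 3)).add_right 1
  exact h1.dvd_iff (dvd_refl p)

theorem Dl_mod2 (l : ℕ) : ¬ 2 ∣ Dl l := by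
  unfold Dl
  intro h
  have h2 : 2 ∣ l * (l + 1) := (Nat.even_mul_succ_self l).two_dvd
  have h3 : 3 * l ^ 2 + 3 * l + 1 = 3 * (l * (l + 1)) + 1 := by ring
  omega

theorem Dl_mod3 (l : ℕ) : ¬ 3 ∣ Dl l := by
  unfold Dl
  intro h
  omega

theorem rts_card (p : ℕ) (hp : p.Prime) : (rts Dl p).card ≤ 2 := by
  classical
  by_cases h3 : p = 3
  · subst h3
    have : rts Dl 3 = ∅ := by
      rw [rts, Finset.filter_eq_empty_iff]
      intro a _
      exact Dl_mod3 a
    rw [this]; simp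
  by_cases hne : (rts Dl p).Nonempty
  · obtain ⟨a, ha⟩ := hne
    have hp3 : ¬ p ∣ 3 := fun h => h3 ((Nat.prime_dvd_prime_iff_eq hp Nat.prime_three).1 h)
    have key : rts Dl p ⊆ {a, p - 1 - a} := by
      intro b hb
      rw [rts, Finset.mem_filter, Finset.mem_range] at ha hb
      rw [Finset.mem_insert, Finset.mem_singleton]
      have h1 : (p : ℤ) ∣ ((Dl a : ℕ) : ℤ) - ((Dl b : ℕ) : ℤ) :=
        dvd_sub (Int.natCast_dvd_natCast.2 ha.2) (Int.natCast_dvd_natCast.2 hb.2)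
      have h2 : ((Dl a : ℕ) : ℤ) - ((Dl b : ℕ) : ℤ) = 3 * (((a : ℤ) - b) * (a + b + 1)) := by
        unfold Dl; push_cast; ring
      rw [h2] at h1
      have hpI : Prime (p : ℤ) := Nat.prime_iff_prime_int.1 hp
      rcases hpI.dvd_or_dvd h1 with h | h
      · exfalso; exact hp3 (by exact_mod_cast h)
      rcases hpI.dvd_or_dvd h with h | h
      · left
        have h4 : (b : ℤ) ≡ a [ZMOD p] := by
          rw [Int.modEq_iff_dvd]; exact h
        have h5 : b ≡ a [MOD p] := (Int.natCast_modEq_iff).1 h4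
        unfold Nat.ModEq at h5
        rwa [Nat.mod_eq_of_lt ha.1, Nat.mod_eq_of_lt hb.1] at h5
      · right
        have h6 : p ∣ a + b + 1 := by exact_mod_cast h
        obtain ⟨c, hc⟩ := h6
        have hc1 : c = 1 := by
          have hlt : a + b + 1 < p * 2 := by omega
          rw [hc] at hlt
          have : c < 2 := Nat.lt_of_mul_lt_mul_left hlt
          have : c ≠ 0 := by rintro rfl; omega
          omega
        rw [hc1, mul_one] at hc
        omega
    exact (Finset.card_le_card key).trans Finset.card_le_two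
  · rw [Finset.not_nonempty_iff_eq_empty] at hne
    rw [hne]; simp

theorem gd_le (p : ℕ) (hp : p.Prime) : gd Dl p ≤ 2 / p := by
  unfold gd
  have h := rts_card p hp
  have hp' : (0 : ℝ) < p := by exact_mod_cast hp.pos
  have : (((rts Dl p).card : ℕ) : ℝ) ≤ 2 := by exact_mod_cast h
  gcongr

theorem gd_nonneg (D : ℕ → ℕ) (p : ℕ) : 0 ≤ gd D p := by unfold gd; positivity

theorem gd_le_23 (p : ℕ) (hp : p.Prime) (h3 : 3 ≤ p) : gd Dl p ≤ 2 / 3 := by
  refine (gd_le p hp).trans ?_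
  have : (3 : ℝ) ≤ p := by exact_mod_cast h3
  gcongr

/-- the blocks of primes -/
def PP (j : ℕ) : Finset ℕ := (range (2 ^ (2 ^ (j + 1)) + 1)).filter (fun p => p.Prime ∧ 2 ^ (2 ^ j) < p)

theorem mem_PP {j p : ℕ} : p ∈ PP j ↔ p ≤ 2 ^ (2 ^ (j + 1)) ∧ p.Prime ∧ 2 ^ (2 ^ j) < p := by
  unfold PP; rw [Finset.mem_filter, Finset.mem_range, Nat.lt_succ_iff]

theorem PP_prime (j p : ℕ) (h : p ∈ PP j) : p.Prime := (mem_PP.1 h).2.1

theorem PP_three (j p : ℕ) (h : p ∈ PP j) : 3 ≤ p := by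
  have h1 := (mem_PP.1 h).2.2
  have h2 : 2 ^ 1 ≤ 2 ^ (2 ^ j) := Nat.pow_le_pow_right (by norm_num) Nat.one_le_two_pow
  omega

theorem PP_disj (i j : ℕ) (h : i ≠ j) : Disjoint (PP i) (PP j) := by
  have key : ∀ i j : ℕ, i < j → Disjoint (PP i) (PP j) := by
    intro i j hij
    rw [Finset.disjoint_left]
    intro p hp hp'
    have h1 := (mem_PP.1 hp).1
    have h2 := (mem_PP.1 hp').2.2
    have h3 : 2 ^ (2 ^ (i + 1)) ≤ 2 ^ (2 ^ j) :=
      Nat.pow_le_pow_right (by norm_num) (Nat.pow_le_pow_right (by norm_num) hij)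
    omega
  rcases Nat.lt_or_gt_of_ne h with h | h
  · exact key i j h
  · exact (key j i h).symm

theorem PP_card (j : ℕ) : (PP j).card ≤ 2 ^ (2 ^ (j + 1)) := by
  have h1 : PP j ⊆ Finset.Icc 1 (2 ^ (2 ^ (j + 1))) := by
    intro p hp
    rw [Finset.mem_Icc]
    exact ⟨(PP_prime j p hp).one_lt.le, (mem_PP.1 hp).1⟩
  have := Finset.card_le_card h1
  simpa using this

theorem cover_PP (t p : ℕ) (hp : p.Prime) (h3 : 3 ≤ p) (h : p ≤ 2 ^ (2 ^ t)) :
    ∃ j < t, p ∈ PP j := by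
  induction t with
  | zero => simp at h; omega
  | succ t ih =>
    by_cases h' : p ≤ 2 ^ (2 ^ t)
    · obtain ⟨j, hj, hj'⟩ := ih h'
      exact ⟨j, by omega, hj'⟩
    · exact ⟨t, by omega, mem_PP.2 ⟨h, hp, by omega⟩⟩

/-- dyadic Chebyshev bound -/
theorem dyadic (i : ℕ) :
    i * ((range (2 ^ (i + 1) + 1)).filter (fun p => p.Prime ∧ 2 ^ i < p)).card ≤ 2 ^ (i + 2) := by
  set T := (range (2 ^ (i + 1) + 1)).filter (fun p => p.Prime ∧ 2 ^ i < p) with hT
  have h1 : (2 ^ i) ^ T.card ≤ ∏ p ∈ T, p := by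
    have := Finset.pow_card_le_prod (s := T) (f := fun p => p) (n := 2 ^ i) (fun p hp => by
      have := (Finset.mem_filter.1 hp).2.2
      exact this.le)
    exact this
  have h2 : ∏ p ∈ T, p ≤ primorial (2 ^ (i + 1)) := by
    unfold primorial
    apply Finset.prod_le_prod_of_subset_of_one_le'
    · intro p hp
      rw [hT, Finset.mem_filter] at hp
      rw [Finset.mem_filter]
      exact ⟨hp.1, hp.2.1⟩
    · intro p hp _
      exact (Finset.mem_filter.1 hp).2.one_lt.le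
  have h3 := primorial_le_four_pow (2 ^ (i + 1))
  have h4 : (2 : ℕ) ^ (i * T.card) ≤ 2 ^ (2 ^ (i + 2)) := by
    calc (2 : ℕ) ^ (i * T.card) = (2 ^ i) ^ T.card := by rw [pow_mul]
      _ ≤ 4 ^ (2 ^ (i + 1)) := h1.trans (h2.trans h3)
      _ = 2 ^ (2 ^ (i + 2)) := by
        rw [show (4 : ℕ) = 2 ^ 2 by norm_num, ← pow_mul]
        congr 1
        ring
  exact (Nat.pow_le_pow_iff_right (by norm_num)).1 h4

theorem dyadic_sum (i : ℕ) (hi : 0 < i) :
    ∑ p ∈ (range (2 ^ (i + 1) + 1)).filter (fun p => p.Prime ∧ 2 ^ i < p), (1 : ℝ) / p ≤ 4 / i := by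
  set T := (range (2 ^ (i + 1) + 1)).filter (fun p => p.Prime ∧ 2 ^ i < p) with hT
  have h1 : ∑ p ∈ T, (1 : ℝ) / p ≤ ∑ p ∈ T, (1 : ℝ) / 2 ^ i := by
    apply Finset.sum_le_sum
    intro p hp
    have := (Finset.mem_filter.1 hp).2.2
    have h2 : ((2 : ℝ) ^ i) ≤ p := by exact_mod_cast this.le
    gcongr
  rw [Finset.sum_const, nsmul_eq_mul] at h1
  have h3 := dyadic i
  rw [← hT] at h3
  have h4 : (i : ℝ) * T.card ≤ 2 ^ (i + 2) := by exact_mod_cast h3
  have hi' : (0 : ℝ) < i := by exact_mod_cast hi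
  refine h1.trans ?_
  rw [le_div_iff₀ hi']
  have h5 : (0 : ℝ) < 2 ^ i := by positivity
  calc (T.card : ℝ) * (1 / 2 ^ i) * i = (i * T.card) / 2 ^ i := by ring
    _ ≤ 2 ^ (i + 2) / 2 ^ i := by gcongr
    _ = 4 := by rw [pow_add]; field_simp; norm_num

theorem PP_sum (j : ℕ) : ∑ p ∈ PP j, (1 : ℝ) / p ≤ 4 := by
  have h1 : PP j ⊆ (Finset.Ico (2 ^ j) (2 ^ (j + 1))).biUnion
      (fun i => (range (2 ^ (i + 1) + 1)).filter (fun p => p.Prime ∧ 2 ^ i < p)) := by
    intro p hp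
    obtain ⟨h1, h2, h3⟩ := mem_PP.1 hp
    -- i minimal with p ≤ 2^(i+1)
    have hex : ∃ i, p ≤ 2 ^ (i + 1) := ⟨2 ^ (j + 1), h1.trans (Nat.pow_le_pow_right (by norm_num) (by omega))⟩
    classical
    set i := Nat.find hex with hi
    have hi1 : p ≤ 2 ^ (i + 1) := Nat.find_spec hex
    have hi2 : 2 ^ i < p := by
      rcases Nat.eq_zero_or_pos i with h0 | h0
      · rw [h0]; simpa using h2.one_lt
      · have := Nat.find_min hex (m := i - 1) (by omega)
        rw [show i - 1 + 1 = i by omega] at this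
        omega
    rw [Finset.mem_biUnion]
    refine ⟨i, ?_, ?_⟩
    · rw [Finset.mem_Ico]
      constructor
      · have h4 : 2 ^ (2 ^ j) < 2 ^ (i + 1) := h3.trans_le hi1
        have := (Nat.pow_lt_pow_iff_right (by norm_num)).1 h4
        omega
      · have h4 : 2 ^ i < 2 ^ (2 ^ (j + 1)) := hi2.trans_le h1
        exact (Nat.pow_lt_pow_iff_right (by norm_num)).1 h4
    · rw [Finset.mem_filter, Finset.mem_range]
      exact ⟨by omega, h2, hi2⟩
  have h2 : ∑ p ∈ PP j, (1 : ℝ) / p ≤ ∑ i ∈ Finset.Ico (2 ^ j) (2 ^ (j + 1)),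
      ∑ p ∈ (range (2 ^ (i + 1) + 1)).filter (fun p => p.Prime ∧ 2 ^ i < p), (1 : ℝ) / p := by
    refine (Finset.sum_le_sum_of_subset_of_nonneg h1 (fun p _ _ => by positivity)).trans ?_
    apply le_of_eq
    apply Finset.sum_biUnion
    have key : ∀ i i' : ℕ, i < i' → Disjoint
        ((range (2 ^ (i + 1) + 1)).filter (fun p => p.Prime ∧ 2 ^ i < p))
        ((range (2 ^ (i' + 1) + 1)).filter (fun p => p.Prime ∧ 2 ^ i' < p)) := by
      intro i i' hii
      rw [Finset.disjoint_left]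
      intro p hp hp'
      rw [Finset.mem_filter, Finset.mem_range] at hp hp'
      have h3 : 2 ^ (i + 1) ≤ 2 ^ i' := Nat.pow_le_pow_right (by norm_num) hii
      omega
    intro i _ i' _ hne
    rcases Nat.lt_or_gt_of_ne hne with h | h
    · exact key i i' h
    · exact (key i' i h).symm
  refine h2.trans ?_
  have h3 : ∀ i ∈ Finset.Ico (2 ^ j) (2 ^ (j + 1)),
      ∑ p ∈ (range (2 ^ (i + 1) + 1)).filter (fun p => p.Prime ∧ 2 ^ i < p), (1 : ℝ) / p ≤
        4 / 2 ^ j := by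
    intro i hi
    have hi' := (Finset.mem_Ico.1 hi).1
    have hpos : 0 < 2 ^ j := by positivity
    refine (dyadic_sum i (by omega)).trans ?_
    have : (2 : ℝ) ^ j ≤ i := by exact_mod_cast hi'
    gcongr
  refine (Finset.sum_le_sum h3).trans ?_
  rw [Finset.sum_const, Nat.card_Ico, nsmul_eq_mul]
  have h4 : 2 ^ (j + 1) - 2 ^ j = 2 ^ j := by rw [pow_succ]; omega
  rw [h4]
  push_cast
  have : (0 : ℝ) < 2 ^ j := by positivity
  apply le_of_eq
  field_simp

end Pool.H67.TC
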