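import Mathlib

/-!
# Elementary symmetric sums and truncated alternating sums (Bonferroni)
-/

namespace Pool.H67.TC

open Finset

/-- elementary symmetric sum of degree `k` of the values of `g` on `P` -/
noncomputable def es (g : ℕ → ℝ) (P : Finset ℕ) (k : ℕ) : ℝ :=
  ∑ S ∈ P.powersetCard k, ∏ p ∈ S, g p

/-- truncated alternating sum -/
noncomputable def ts (g : ℕ → ℝ) (P : Finset ℕ) (b : ℕ) : ℝ :=
  ∑ k ∈ range (b + 1), (-1 : ℝ) ^ k * es g P k

theorem es_zero (g : ℕ → ℝ) (P : Finset ℕ) : es g P 0 = 1 := by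
  simp [es]

theorem es_empty_succ (g : ℕ → ℝ) (k : ℕ) : es g ∅ (k + 1) = 0 := by
  simp [es, Finset.powersetCard_eq_empty.2]

theorem es_insert (g : ℕ → ℝ) (P : Finset ℕ) (p : ℕ) (hp : p ∉ P) (k : ℕ) :
    es g (insert p P) (k + 1) = es g P (k + 1) + g p * es g P k := by
  unfold es
  rw [Finset.powersetCard_succ_insert hp]
  rw [Finset.sum_union, Finset.sum_image, Finset.mul_sum]
  · congr 1
    apply Finset.sum_congr rfl
    intro S hS
    rw [Finset.prod_insert]
    intro h
    exact hp ((Finset.mem_powersetCard.1 hS).1 h)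
  · intro S hS S' hS' h
    have h1 : p ∉ S := fun h => hp ((Finset.mem_powersetCard.1 hS).1 h)
    have h2 : p ∉ S' := fun h => hp ((Finset.mem_powersetCard.1 hS').1 h)
    rw [← Finset.erase_insert h1, h, Finset.erase_insert h2]
  · rw [Finset.disjoint_left]
    intro S hS hS'
    obtain ⟨S', _, rfl⟩ := Finset.mem_image.1 hS'
    exact hp ((Finset.mem_powersetCard.1 hS).1 (Finset.mem_insert_self _ _))

theorem es_nonneg (g : ℕ → ℝ) (P : Finset ℕ) (k : ℕ) (h : ∀ p ∈ P, 0 ≤ g p) : 0 ≤ es g P k := by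
  unfold es
  apply Finset.sum_nonneg
  intro S hS
  apply Finset.prod_nonneg
  intro p hp
  exact h p ((Finset.mem_powersetCard.1 hS).1 hp)

theorem ts_zero (g : ℕ → ℝ) (P : Finset ℕ) : ts g P 0 = 1 := by
  simp [ts, es_zero]

theorem ts_succ (g : ℕ → ℝ) (P : Finset ℕ) (b : ℕ) :
    ts g P (b + 1) = ts g P b + (-1) ^ (b + 1) * es g P (b + 1) := by
  unfold ts
  rw [Finset.sum_range_succ]

theorem ts_empty (g : ℕ → ℝ) (b : ℕ) : ts g ∅ b = 1 := by
  induction b with
  | zero => exact ts_zero _ _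
  | succ b ih => rw [ts_succ, ih, es_empty_succ]; ring

theorem ts_insert (g : ℕ → ℝ) (P : Finset ℕ) (p : ℕ) (hp : p ∉ P) (b : ℕ) :
    ts g (insert p P) (b + 1) = ts g P (b + 1) - g p * ts g P b := by
  induction b with
  | zero =>
    rw [ts_succ, ts_succ, ts_zero, ts_zero, es_insert g P p hp, es_zero]
    ring
  | succ b ih =>
    rw [ts_succ, ih, es_insert g P p hp, ts_succ g P (b + 1), ts_succ g P b]
    ring

/-- Bonferroni inequalities -/
theorem bonf (g : ℕ → ℝ) (P : Finset ℕ) (h0 : ∀ p ∈ P, 0 ≤ g p) (h1 : ∀ p ∈ P, g p ≤ 1) :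
    ∀ b, 0 ≤ (-1 : ℝ) ^ b * (ts g P b - ∏ p ∈ P, (1 - g p)) := by
  induction P using Finset.induction_on with
  | empty => intro b; simp [ts_empty]
  | insert p P hp ih =>
    have ih' := ih (fun q hq => h0 q (Finset.mem_insert_of_mem hq))
      (fun q hq => h1 q (Finset.mem_insert_of_mem hq))
    intro b
    have hgp0 := h0 p (Finset.mem_insert_self _ _)
    have hgp1 := h1 p (Finset.mem_insert_self _ _)
    have hV0 : 0 ≤ ∏ q ∈ P, (1 - g q) := Finset.prod_nonneg fun q hq => by
      have := h1 q (Finset.mem_insert_of_mem hq); linarith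
    have hV1 : ∏ q ∈ P, (1 - g q) ≤ 1 := Finset.prod_le_one
      (fun q hq => by have := h1 q (Finset.mem_insert_of_mem hq); linarith)
      (fun q hq => by have := h0 q (Finset.mem_insert_of_mem hq); linarith)
    rw [Finset.prod_insert hp]
    cases b with
    | zero =>
      rw [ts_zero]
      have : (1 - g p) * ∏ q ∈ P, (1 - g q) ≤ 1 := by
        calc (1 - g p) * ∏ q ∈ P, (1 - g q) ≤ 1 * 1 :=
              mul_le_mul (by linarith) hV1 hV0 zero_le_one
          _ = 1 := one_mul 1
      simp only [pow_zero, one_mul]; linarith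
    | succ b =>
      rw [ts_insert g P p hp]
      have e1 := ih' (b + 1)
      have e2 := mul_nonneg hgp0 (ih' b)
      have : (-1 : ℝ) ^ (b + 1) * (ts g P (b + 1) - g p * ts g P b
          - (1 - g p) * ∏ q ∈ P, (1 - g q)) =
          (-1 : ℝ) ^ (b + 1) * (ts g P (b + 1) - ∏ p ∈ P, (1 - g p)) +
          g p * ((-1 : ℝ) ^ b * (ts g P b - ∏ p ∈ P, (1 - g p))) := by
        rw [pow_succ]; ring
      rw [this]; linarith

theorem ts_ge (g : ℕ → ℝ) (P : Finset ℕ) (h0 : ∀ p ∈ P, 0 ≤ g p) (h1 : ∀ p ∈ P, g p ≤ 1)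
    (b : ℕ) (hb : Even b) : ∏ p ∈ P, (1 - g p) ≤ ts g P b := by
  have := bonf g P h0 h1 b
  rw [hb.neg_one_pow] at this
  linarith

theorem ts_le (g : ℕ → ℝ) (P : Finset ℕ) (h0 : ∀ p ∈ P, 0 ≤ g p) (h1 : ∀ p ∈ P, g p ≤ 1)
    (b : ℕ) (hb : Even b) : ts g P b ≤ ∏ p ∈ P, (1 - g p) + es g P (b + 1) := by
  have := bonf g P h0 h1 (b + 1)
  rw [ts_succ, pow_succ, hb.neg_one_pow] at this
  linarith

theorem es_le (g : ℕ → ℝ) (P : Finset ℕ) (h0 : ∀ p ∈ P, 0 ≤ g p) :
    ∀ k, es g P k ≤ (∑ p ∈ P, g p) ^ k / (k.factorial : ℝ) := by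
  induction P using Finset.induction_on with
  | empty =>
    intro k
    cases k with
    | zero => simp [es_zero]
    | succ k => rw [es_empty_succ]; simp
  | insert p P hp ih =>
    intro k
    have h0' : ∀ q ∈ P, 0 ≤ g q := fun q hq => h0 q (Finset.mem_insert_of_mem hq)
    have hgp := h0 p (Finset.mem_insert_self _ _)
    have hs : 0 ≤ ∑ q ∈ P, g q := Finset.sum_nonneg h0'
    cases k with
    | zero => simp [es_zero]
    | succ k =>
      rw [es_insert g P p hp, Finset.sum_insert hp]
      have e1 := ih h0' (k + 1)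
      have e2 := ih h0' k
      set s := ∑ q ∈ P, g q with hsdef
      have hk1 : (0 : ℝ) < (k + 1).factorial := by positivity
      have hk0 : (0 : ℝ) < k.factorial := by positivity
      have hfac : ((k + 1).factorial : ℝ) = (k + 1) * k.factorial := by
        rw [Nat.factorial_succ]; push_cast; ring
      have key : s ^ (k + 1) + (k + 1) * g p * s ^ k ≤ (g p + s) ^ (k + 1) := by
        have : ∀ m : ℕ, s ^ (m + 1) + (m + 1) * g p * s ^ m ≤ (g p + s) ^ (m + 1) := by
          intro m
          induction m with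
          | zero => simp; linarith
          | succ m ihm =>
            have hgs : 0 ≤ g p + s := by linarith
            calc s ^ (m + 1 + 1) + ((m + 1 : ℕ) + 1) * g p * s ^ (m + 1)
                ≤ (s ^ (m + 1) + (m + 1) * g p * s ^ m) * (g p + s) := by
                  have h3 : 0 ≤ (m + 1) * g p * s ^ m * g p := by positivity
                  have h4 : (s ^ (m + 1) + (m + 1) * g p * s ^ m) * (g p + s) =
                      s ^ (m + 1 + 1) + ((m + 1 : ℕ) + 1) * g p * s ^ (m + 1) +
                        (m + 1) * g p * s ^ m * g p := by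
                    push_cast; ring
                  rw [h4]; linarith
              _ ≤ (g p + s) ^ (m + 1) * (g p + s) :=
                  mul_le_mul_of_nonneg_right ihm hgs
              _ = (g p + s) ^ (m + 1 + 1) := by ring
        exact this k
      calc es g P (k + 1) + g p * es g P k
          ≤ s ^ (k + 1) / ((k + 1).factorial : ℝ) + g p * (s ^ k / (k.factorial : ℝ)) := by
            have := mul_le_mul_of_nonneg_left e2 hgp
            linarith
        _ = (s ^ (k + 1) + (k + 1) * g p * s ^ k) / ((k + 1).factorial : ℝ) := by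
            rw [hfac]; field_simp
        _ ≤ (g p + s) ^ (k + 1) / ((k + 1).factorial : ℝ) := by
            exact div_le_div_of_nonneg_right key hk1.le

end Pool.H67.TC
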