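import Pool.Agent.H67.TC.Sym

/-!
# Functions with a mean in every residue class coprime to a set of moduli
-/

namespace Pool.H67.TC

open Finset

/-- `f` has mean `μ`, with error at most `H`, along every arithmetic progression whose modulus
is coprime to all elements of `P`. -/
def UD (f : ℕ → ℝ) (P : Finset ℕ) (μ H : ℝ) : Prop :=
  ∀ q r L : ℕ, 0 < q → (∀ p ∈ P, Nat.Coprime q p) →
    |∑ l ∈ (range L).filter (fun l => l ≡ r [MOD q]), f l - μ * L / q| ≤ H

theorem UD.mono {f : ℕ → ℝ} {P P' : Finset ℕ} {μ H H' : ℝ} (h : UD f P μ H) (hP : P ⊆ P')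
    (hH : H ≤ H') : UD f P' μ H' :=
  fun q r L hq hc => (h q r L hq fun p hp => hc p (hP hp)).trans hH

theorem UD.congr {f f' : ℕ → ℝ} {P : Finset ℕ} {μ μ' H : ℝ} (h : UD f P μ H)
    (hf : ∀ l, f l = f' l) (hμ : μ = μ') : UD f' P μ' H := by
  have : f = f' := funext hf
  subst this; subst hμ; exact h

theorem UD.one : UD (fun _ => 1) ∅ 1 1 := by
  intro q r L hq _
  have h1 : ∑ l ∈ (range L).filter (fun l => l ≡ r [MOD q]), (1 : ℝ) =
      (L.count (· ≡ r [MOD q]) : ℕ) := by
    rw [Nat.count_eq_card_filter_range]; simp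
  rw [h1, Nat.count_modEq_card _ hq]
  have hq' : (0 : ℝ) < q := by exact_mod_cast hq
  have h2 : ((L / q : ℕ) : ℝ) ≤ (L : ℝ) / q := Nat.cast_div_le
  have h3 : (L : ℝ) / q < (L / q : ℕ) + 1 := by
    rw [div_lt_iff₀ hq']
    have := Nat.lt_div_mul_add (a := L) hq
    have h4 : L < (L / q + 1) * q := by linarith [this, add_mul (L / q) 1 q]
    exact_mod_cast h4
  rw [abs_le]
  rw [one_mul]
  split_ifs <;> push_cast <;> constructor <;> linarith

theorem UD.add {f g : ℕ → ℝ} {P : Finset ℕ} {μ H ν K : ℝ} (hf : UD f P μ H) (hg : UD g P ν K) :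
    UD (fun l => f l + g l) P (μ + ν) (H + K) := by
  intro q r L hq hc
  have h1 := hf q r L hq hc
  have h2 := hg q r L hq hc
  rw [Finset.sum_add_distrib]
  have : ∑ l ∈ (range L).filter (fun l => l ≡ r [MOD q]), f l +
      ∑ l ∈ (range L).filter (fun l => l ≡ r [MOD q]), g l - (μ + ν) * L / q =
      (∑ l ∈ (range L).filter (fun l => l ≡ r [MOD q]), f l - μ * L / q) +
      (∑ l ∈ (range L).filter (fun l => l ≡ r [MOD q]), g l - ν * L / q) := by ring
  rw [this]
  exact (abs_add_le _ _).trans (add_le_add h1 h2)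

theorem UD.smul {f : ℕ → ℝ} {P : Finset ℕ} {μ H : ℝ} (hf : UD f P μ H) (c : ℝ) :
    UD (fun l => c * f l) P (c * μ) (|c| * H) := by
  intro q r L hq hc
  have h1 := hf q r L hq hc
  rw [← Finset.mul_sum]
  have : c * ∑ l ∈ (range L).filter (fun l => l ≡ r [MOD q]), f l - c * μ * L / q =
      c * (∑ l ∈ (range L).filter (fun l => l ≡ r [MOD q]), f l - μ * L / q) := by ring
  rw [this, abs_mul]
  exact mul_le_mul_of_nonneg_left h1 (abs_nonneg _)

theorem UD.zero (P : Finset ℕ) : UD (fun _ => 0) P 0 0 := by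
  intro q r L hq hc
  simp

theorem UD.sum {ι : Type*} {P : Finset ℕ} (s : Finset ι) (f : ι → ℕ → ℝ) (μ H : ι → ℝ)
    (h : ∀ i ∈ s, UD (f i) P (μ i) (H i)) :
    UD (fun l => ∑ i ∈ s, f i l) P (∑ i ∈ s, μ i) (∑ i ∈ s, H i) := by
  classical
  induction s using Finset.induction_on with
  | empty => simpa using UD.zero P
  | insert a s ha ih =>
    have h1 := (h a (mem_insert_self _ _)).add (ih fun i hi => h i (mem_insert_of_mem hi))
    simp only [Finset.sum_insert ha]
    exact h1

/-- restricting to a residue class -/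
theorem UD.cls {f : ℕ → ℝ} {P : Finset ℕ} {μ H : ℝ} (hf : UD f P μ H) (d a : ℕ) (hd : 0 < d)
    (hc : ∀ p ∈ P, Nat.Coprime d p) :
    UD (fun l => if l ≡ a [MOD d] then f l else 0) (insert d P) (μ / d) H := by
  intro q r L hq hcq
  have hqd : Nat.Coprime q d := hcq d (mem_insert_self _ _)
  have h1 := hf (q * d) (Nat.chineseRemainder hqd r a) L (Nat.mul_pos hq hd) (fun p hp =>
    Nat.Coprime.mul_left (hcq p (mem_insert_of_mem hp)) (hc p hp))
  rw [← Finset.sum_filter, Finset.filter_filter]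
  have h2 : (range L).filter (fun l => l ≡ r [MOD q] ∧ l ≡ a [MOD d]) =
      (range L).filter (fun l => l ≡ (Nat.chineseRemainder hqd r a : ℕ) [MOD (q * d)]) := by
    apply Finset.filter_congr
    intro l _
    have hk := (Nat.chineseRemainder hqd r a).2
    rw [← Nat.modEq_and_modEq_iff_modEq_mul hqd]
    constructor
    · rintro ⟨h, h'⟩; exact ⟨h.trans hk.1.symm, h'.trans hk.2.symm⟩
    · rintro ⟨h, h'⟩; exact ⟨h.trans hk.1, h'.trans hk.2⟩
  rw [h2]
  have h3 : μ / d * L / q = μ * L / ((q * d : ℕ) : ℝ) := by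
    push_cast
    have hq' : (q : ℝ) ≠ 0 := by exact_mod_cast hq.ne'
    have hd' : (d : ℝ) ≠ 0 := by exact_mod_cast hd.ne'
    field_simp
  rw [h3]
  exact h1

/-- number of roots of `D` modulo `p` -/
def rts (D : ℕ → ℕ) (p : ℕ) : Finset ℕ := (range p).filter (fun a => p ∣ D a)

/-- indicator of `p ∣ D l` -/
noncomputable def idv (D : ℕ → ℕ) (l p : ℕ) : ℝ := if p ∣ D l then 1 else 0

/-- `D` has the same divisibility on residue classes -/
def Per (D : ℕ → ℕ) : Prop := ∀ p a b : ℕ, a ≡ b [MOD p] → (p ∣ D a ↔ p ∣ D b)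

theorem idv_eq (D : ℕ → ℕ) (hD : Per D) (p l : ℕ) (hp : 0 < p) :
    idv D l p = ∑ a ∈ rts D p, if l ≡ a [MOD p] then (1 : ℝ) else 0 := by
  classical
  unfold idv
  rw [Finset.sum_ite, Finset.sum_const_zero, add_zero, Finset.sum_const, nsmul_eq_mul, mul_one]
  have : (rts D p).filter (fun a => l ≡ a [MOD p]) = if p ∣ D l then {l % p} else ∅ := by
    ext a
    rw [Finset.mem_filter, rts, Finset.mem_filter, Finset.mem_range]
    constructor
    · rintro ⟨⟨h1, h2⟩, h3⟩
      have : p ∣ D l := (hD p l a h3).2 h2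
      rw [if_pos this, Finset.mem_singleton]
      have := h3.symm
      unfold Nat.ModEq at this
      rw [Nat.mod_eq_of_lt h1] at this
      exact this
    · intro h
      split_ifs at h with h'
      · rw [Finset.mem_singleton] at h
        subst h
        have h4 : l ≡ l % p [MOD p] := (Nat.mod_modEq l p).symm
        exact ⟨⟨Nat.mod_lt _ hp, (hD p l _ h4).1 h'⟩, h4⟩
      · simp at h
  rw [this]
  split_ifs <;> simp

theorem UD.mulInd {f : ℕ → ℝ} {P : Finset ℕ} {μ H : ℝ} (hf : UD f P μ H) (D : ℕ → ℕ) (hD : Per D)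
    (p : ℕ) (hp : 0 < p) (hc : ∀ q ∈ P, Nat.Coprime p q) :
    UD (fun l => f l * idv D l p) (insert p P) (μ * (((rts D p).card : ℝ) / p))
      (H * (rts D p).card) := by
  have h1 := UD.sum (P := insert p P) (rts D p)
    (fun a l => if l ≡ a [MOD p] then f l else 0) (fun _ => μ / p) (fun _ => H)
    (fun a _ => hf.cls p a hp hc)
  have h2 := h1.congr (f' := fun l => f l * idv D l p)
    (μ' := μ * (((rts D p).card : ℝ) / p)) (fun l => by
      rw [idv_eq D hD p l hp, Finset.mul_sum]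
      apply Finset.sum_congr rfl
      intro a _
      split_ifs <;> simp) (by simp; ring)
  apply h2.mono (le_refl _)
  simp [mul_comm]

theorem UD.mulProd {f : ℕ → ℝ} {P : Finset ℕ} {μ H : ℝ} (hf : UD f P μ H) (D : ℕ → ℕ)
    (hD : Per D) (S : Finset ℕ) (hS : ∀ p ∈ S, p.Prime) (hc : ∀ p ∈ S, ∀ q ∈ P, Nat.Coprime p q) :
    UD (fun l => f l * ∏ p ∈ S, idv D l p) (P ∪ S) (μ * ∏ p ∈ S, (((rts D p).card : ℝ) / p))
      (H * ∏ p ∈ S, ((rts D p).card : ℝ)) := by
  classical
  induction S using Finset.induction_on with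
  | empty => simpa using hf
  | insert p S hp ih =>
    have h1 := ih (fun q hq => hS q (mem_insert_of_mem hq))
      (fun q hq => hc q (mem_insert_of_mem hq))
    have hpp := hS p (mem_insert_self _ _)
    have h2 := h1.mulInd D hD p hpp.pos (by
      intro q hq
      rcases Finset.mem_union.1 hq with h | h
      · exact hc p (mem_insert_self _ _) q h
      · have hq' := hS q (mem_insert_of_mem h)
        exact (Nat.coprime_primes hpp hq').2 (by rintro rfl; exact hp h))
    have h3 := h2.congr (f' := fun l => f l * ∏ p ∈ insert p S, idv D l p)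
      (μ' := μ * ∏ p ∈ insert p S, (((rts D p).card : ℝ) / p))
      (fun l => by rw [Finset.prod_insert hp]; ring) (by rw [Finset.prod_insert hp]; ring)
    apply h3.mono
    · intro x hx
      simp only [Finset.mem_insert, Finset.mem_union] at hx ⊢
      tauto
    · rw [Finset.prod_insert hp]
      apply le_of_eq; ring

theorem UD.mulEs {f : ℕ → ℝ} {P : Finset ℕ} {μ H : ℝ} (hf : UD f P μ H) (D : ℕ → ℕ)
    (hD : Per D) (T : Finset ℕ) (hT : ∀ p ∈ T, p.Prime) (hc : ∀ p ∈ T, ∀ q ∈ P, Nat.Coprime p q)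
    (k : ℕ) :
    UD (fun l => f l * es (idv D l) T k) (P ∪ T)
      (μ * es (fun p => ((rts D p).card : ℝ) / p) T k)
      (H * es (fun p => ((rts D p).card : ℝ)) T k) := by
  have h1 := UD.sum (P := P ∪ T) (T.powersetCard k)
    (fun S l => f l * ∏ p ∈ S, idv D l p)
    (fun S => μ * ∏ p ∈ S, (((rts D p).card : ℝ) / p))
    (fun S => H * ∏ p ∈ S, ((rts D p).card : ℝ)) (fun S hS => by
      have hS' := (Finset.mem_powersetCard.1 hS).1
      exact (hf.mulProd D hD S (fun p hp => hT p (hS' hp)) (fun p hp => hc p (hS' hp))).mono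
        (Finset.union_subset_union (le_refl _) hS') (le_refl _))
  have h2 := h1.congr (f' := fun l => f l * es (idv D l) T k)
    (μ' := μ * es (fun p => ((rts D p).card : ℝ) / p) T k)
    (fun l => by rw [es, Finset.mul_sum]) (by rw [es, Finset.mul_sum])
  apply h2.mono (le_refl _)
  rw [es, Finset.mul_sum]

theorem UD.mulTs {f : ℕ → ℝ} {P : Finset ℕ} {μ H : ℝ} (hf : UD f P μ H) (D : ℕ → ℕ)
    (hD : Per D) (T : Finset ℕ) (hT : ∀ p ∈ T, p.Prime) (hc : ∀ p ∈ T, ∀ q ∈ P, Nat.Coprime p q)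
    (b : ℕ) :
    UD (fun l => f l * ts (idv D l) T b) (P ∪ T)
      (μ * ts (fun p => ((rts D p).card : ℝ) / p) T b)
      (H * ∑ k ∈ range (b + 1), es (fun p => ((rts D p).card : ℝ)) T k) := by
  have h1 := UD.sum (P := P ∪ T) (range (b + 1))
    (fun k l => (-1) ^ k * (f l * es (idv D l) T k))
    (fun k => (-1) ^ k * (μ * es (fun p => ((rts D p).card : ℝ) / p) T k))
    (fun k => |(-1) ^ k| * (H * es (fun p => ((rts D p).card : ℝ)) T k))
    (fun k _ => (hf.mulEs D hD T hT hc k).smul ((-1) ^ k))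
  have h2 := h1.congr (f' := fun l => f l * ts (idv D l) T b)
    (μ' := μ * ts (fun p => ((rts D p).card : ℝ) / p) T b)
    (fun l => by
      rw [ts, Finset.mul_sum]
      apply Finset.sum_congr rfl; intro k _; ring)
    (by
      rw [ts, Finset.mul_sum]
      apply Finset.sum_congr rfl; intro k _; ring)
  apply h2.mono (le_refl _)
  rw [Finset.mul_sum]
  apply le_of_eq
  apply Finset.sum_congr rfl
  intro k _
  rw [abs_pow, abs_neg, abs_one, one_pow, one_mul]

end Pool.H67.TC
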