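import Pool.Agent.H67.TC.Cub

/-!
# Second moment: almost every `n` is a nonzero cubic residue modulo all prime factors of `Dl l`
for some `l`
-/

namespace Pool.H67.TC

open Finset

/-- normalised indicator of nonzero cubic residues modulo `p` -/
noncomputable def cc (p n : ℕ) : ℝ := (p : ℝ) / (Rc p).card * (if n % p ∈ Rc p then 1 else 0)

theorem cc_eq (p n : ℕ) (hp : 0 < p) :
    cc p n = (p : ℝ) / (Rc p).card * ∑ a ∈ Rc p, if n ≡ a [MOD p] then (1 : ℝ) else 0 := by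
  classical
  unfold cc
  congr 1
  have h1 : ∀ a ∈ Rc p, (if n ≡ a [MOD p] then (1 : ℝ) else 0) = if n % p = a then 1 else 0 := by
    intro a ha
    have h2 := (mem_Rc.1 ha).1
    have : n ≡ a [MOD p] ↔ n % p = a := by
      unfold Nat.ModEq
      rw [Nat.mod_eq_of_lt h2]
    by_cases h : n % p = a
    · rw [if_pos (this.2 h), if_pos h]
    · rw [if_neg (fun h' => h (this.1 h')), if_neg h]
  rw [Finset.sum_congr rfl h1, Finset.sum_ite_eq]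

theorem cc_sq (p n : ℕ) : cc p n * cc p n = (p : ℝ) / (Rc p).card * cc p n := by
  unfold cc
  split_ifs <;> ring

theorem UD.mulC {f : ℕ → ℝ} {P : Finset ℕ} {μ H : ℝ} (hf : UD f P μ H)
    (p : ℕ) (hp : p.Prime) (h5 : 5 ≤ p) (hc : ∀ q ∈ P, Nat.Coprime p q) :
    UD (fun l => f l * cc p l) (insert p P) μ (H * p) := by
  have hr := (Rc_ratio p hp h5).1
  have hr' : (0 : ℝ) < (Rc p).card := by exact_mod_cast hr
  have hp' : (0 : ℝ) < p := by exact_mod_cast hp.pos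
  have h1 := (UD.sum (P := insert p P) (Rc p)
    (fun a l => if l ≡ a [MOD p] then f l else 0) (fun _ => μ / p) (fun _ => H)
    (fun a _ => hf.cls p a hp.pos hc)).smul ((p : ℝ) / (Rc p).card)
  have h2 := h1.congr (f' := fun l => f l * cc p l) (μ' := μ) (fun l => by
      rw [cc_eq p l hp.pos, mul_left_comm]
      congr 1
      rw [Finset.mul_sum]
      apply Finset.sum_congr rfl
      intro a _
      split_ifs <;> simp) (by
      rw [Finset.sum_const, nsmul_eq_mul]; field_simp)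
  apply h2.mono (le_refl _)
  rw [Finset.sum_const, nsmul_eq_mul, abs_of_pos (by positivity)]
  apply le_of_eq
  field_simp

theorem UD.prodC {f : ℕ → ℝ} {P : Finset ℕ} {μ H : ℝ} (hf : UD f P μ H)
    (S : Finset ℕ) (hS : ∀ p ∈ S, p.Prime ∧ 5 ≤ p) (hc : ∀ p ∈ S, ∀ q ∈ P, Nat.Coprime p q) :
    UD (fun l => f l * ∏ p ∈ S, cc p l) (P ∪ S) μ (H * ∏ p ∈ S, (p : ℝ)) := by
  classical
  induction S using Finset.induction_on with
  | empty => simpa using hf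
  | insert p S hp ih =>
    have h1 := ih (fun q hq => hS q (mem_insert_of_mem hq))
      (fun q hq => hc q (mem_insert_of_mem hq))
    have hpp := hS p (mem_insert_self _ _)
    have h2 := h1.mulC p hpp.1 hpp.2 (by
      intro q hq
      rcases Finset.mem_union.1 hq with h | h
      · exact hc p (mem_insert_self _ _) q h
      · have hq' := hS q (mem_insert_of_mem h)
        exact (Nat.coprime_primes hpp.1 hq'.1).2 (by rintro rfl; exact hp h))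
    have h3 := h2.congr (f' := fun l => f l * ∏ p ∈ insert p S, cc p l)
      (μ' := μ)
      (fun l => by rw [Finset.prod_insert hp]; ring) rfl
    apply h3.mono
    · intro x hx
      simp only [Finset.mem_insert, Finset.mem_union] at hx ⊢
      tauto
    · rw [Finset.prod_insert hp]
      apply le_of_eq; ring

theorem UD.total {f : ℕ → ℝ} {P : Finset ℕ} {μ H : ℝ} (hf : UD f P μ H) (X : ℕ) :
    |∑ n ∈ range X, f n - μ * X| ≤ H := by
  have h1 := hf 1 0 X one_pos (fun p _ => Nat.coprime_one_left p)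
  have h2 : (range X).filter (fun l => l ≡ 0 [MOD 1]) = range X := by
    apply Finset.filter_true_of_mem
    intro l _
    exact Nat.modEq_one
  rw [h2] at h1
  simpa using h1

theorem sum_single (S : Finset ℕ) (hS : ∀ p ∈ S, p.Prime ∧ 5 ≤ p) (X : ℕ) :
    |∑ n ∈ range X, ∏ p ∈ S, cc p n - X| ≤ ∏ p ∈ S, (p : ℝ) := by
  have h := (UD.one.prodC S hS (fun p _ q hq => by simp at hq)).total X
  simpa using h

theorem prod_pair (U S : Finset ℕ) (hSU : S ⊆ U) (n : ℕ) :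
    (∏ p ∈ U, cc p n) * ∏ p ∈ S, cc p n =
      (∏ p ∈ S, (p : ℝ) / (Rc p).card) * ∏ p ∈ U, cc p n := by
  classical
  rw [← Finset.prod_sdiff hSU, mul_assoc, ← Finset.prod_mul_distrib,
    Finset.prod_congr rfl (fun p _ => cc_sq p n), Finset.prod_mul_distrib]
  ring

/-- `κ` of a pair -/
noncomputable def ka (S : Finset ℕ) : ℝ := ∏ p ∈ S, (p : ℝ) / (Rc p).card

theorem ka_nonneg (S : Finset ℕ) : 0 ≤ ka S := Finset.prod_nonneg fun p _ => by positivity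

theorem ka_le (S : Finset ℕ) (hS : ∀ p ∈ S, p.Prime ∧ 5 ≤ p) : ka S ≤ 4 ^ S.card := by
  unfold ka
  rw [← Finset.prod_const]
  exact Finset.prod_le_prod (fun p _ => by positivity)
    (fun p hp => (Rc_ratio p (hS p hp).1 (hS p hp).2).2)

theorem sum_pair (T T' : Finset ℕ) (hT : ∀ p ∈ T, p.Prime ∧ 5 ≤ p)
    (hT' : ∀ p ∈ T', p.Prime ∧ 5 ≤ p) (X : ℕ) :
    |∑ n ∈ range X, (∏ p ∈ T, cc p n) * (∏ p ∈ T', cc p n) - ka (T ∩ T') * X| ≤
      ka (T ∩ T') * ∏ p ∈ T ∪ T', (p : ℝ) := by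
  classical
  have h1 : ∀ n, (∏ p ∈ T, cc p n) * (∏ p ∈ T', cc p n) =
      ka (T ∩ T') * ∏ p ∈ T ∪ T', cc p n := by
    intro n
    rw [← Finset.prod_union_inter]
    exact prod_pair (T ∪ T') (T ∩ T')
      (Finset.inter_subset_left.trans Finset.subset_union_left) n
  simp_rw [h1]
  rw [← Finset.mul_sum, ← mul_sub, abs_mul, abs_of_nonneg (ka_nonneg _)]
  apply mul_le_mul_of_nonneg_left _ (ka_nonneg _)
  apply sum_single
  intro p hp
  rcases Finset.mem_union.1 hp with h | h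
  · exact hT p h
  · exact hT' p h

theorem pair_bound (T T' : Finset ℕ) (hT : ∀ p ∈ T, p.Prime ∧ 5 ≤ p)
    (hT' : ∀ p ∈ T', p.Prime ∧ 5 ≤ p) (X w : ℕ) (B : ℝ) (hB : 1 ≤ B)
    (hw : T.card ≤ w) (hTB : ∏ p ∈ T, (p : ℝ) ≤ B)
    (hTB' : ∏ p ∈ T', (p : ℝ) ≤ B) :
    ∑ n ∈ range X, (∏ p ∈ T, cc p n - 1) * (∏ p ∈ T', cc p n - 1) ≤
      (X : ℝ) * (4 ^ w * if (T ∩ T').Nonempty then 1 else 0) + 3 * 4 ^ w * B ^ 2 := by
  classical
  have h1 := (abs_le.1 (sum_pair T T' hT hT' X)).2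
  have h2 := (abs_le.1 (sum_single T hT X)).1
  have h3 := (abs_le.1 (sum_single T' hT' X)).1
  have e : ∑ n ∈ range X, (∏ p ∈ T, cc p n - 1) * (∏ p ∈ T', cc p n - 1) =
      ∑ n ∈ range X, (∏ p ∈ T, cc p n) * (∏ p ∈ T', cc p n) - ∑ n ∈ range X, ∏ p ∈ T, cc p n
      - ∑ n ∈ range X, ∏ p ∈ T', cc p n + X := by
    have : ∀ n, (∏ p ∈ T, cc p n - 1) * (∏ p ∈ T', cc p n - 1) =
        (∏ p ∈ T, cc p n) * (∏ p ∈ T', cc p n) - ∏ p ∈ T, cc p n - ∏ p ∈ T', cc p n + 1 :=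
      fun n => by ring
    simp_rw [this]
    rw [Finset.sum_add_distrib, Finset.sum_sub_distrib, Finset.sum_sub_distrib]
    simp
  have hI : ∀ p ∈ T ∩ T', p.Prime ∧ 5 ≤ p := fun p hp => hT p (Finset.mem_inter.1 hp).1
  have hX : (0 : ℝ) ≤ X := by positivity
  have hk4 : ka (T ∩ T') ≤ 4 ^ w := by
    refine (ka_le _ hI).trans ?_
    apply pow_le_pow_right₀ (by norm_num)
    exact (Finset.card_le_card Finset.inter_subset_left).trans hw
  have hk1 : (ka (T ∩ T') - 1) * X ≤ (X : ℝ) * (4 ^ w * if (T ∩ T').Nonempty then 1 else 0) := by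
    split_ifs with h
    · rw [mul_one, mul_comm]
      apply mul_le_mul_of_nonneg_left _ hX
      linarith
    · rw [Finset.not_nonempty_iff_eq_empty] at h
      rw [h]; simp [ka]
  have hU : ∏ p ∈ T ∪ T', (p : ℝ) ≤ B ^ 2 := by
    have h4 : (∏ p ∈ T ∪ T', (p : ℝ)) * ∏ p ∈ T ∩ T', (p : ℝ) = (∏ p ∈ T, (p : ℝ)) * ∏ p ∈ T', (p : ℝ) :=
      Finset.prod_union_inter
    have h5 : (1 : ℝ) ≤ ∏ p ∈ T ∩ T', (p : ℝ) := by
      have : ∏ p ∈ T ∩ T', (1 : ℝ) ≤ ∏ p ∈ T ∩ T', (p : ℝ) :=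
        Finset.prod_le_prod (fun _ _ => zero_le_one) (fun p hp => by
          exact_mod_cast (hI p hp).1.one_lt.le)
      simpa using this
    have h6 : (0 : ℝ) ≤ ∏ p ∈ T ∪ T', (p : ℝ) := Finset.prod_nonneg fun p _ => by positivity
    have h7 : (0 : ℝ) ≤ ∏ p ∈ T', (p : ℝ) := Finset.prod_nonneg fun p _ => by positivity
    calc ∏ p ∈ T ∪ T', (p : ℝ) ≤ (∏ p ∈ T ∪ T', (p : ℝ)) * ∏ p ∈ T ∩ T', (p : ℝ) :=
          le_mul_of_one_le_right h6 h5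
      _ = (∏ p ∈ T, (p : ℝ)) * ∏ p ∈ T', (p : ℝ) := h4
      _ ≤ B * B := mul_le_mul hTB hTB' h7 (by linarith)
      _ = B ^ 2 := by ring
  have h8 : ka (T ∩ T') * ∏ p ∈ T ∪ T', (p : ℝ) ≤ 4 ^ w * B ^ 2 :=
    mul_le_mul hk4 hU (Finset.prod_nonneg fun p _ => by positivity) (by positivity)
  have h9 : B ≤ 4 ^ w * B ^ 2 := by
    have : (1 : ℝ) ≤ 4 ^ w := one_le_pow₀ (by norm_num)
    nlinarith [mul_nonneg (sub_nonneg.2 this) (sq_nonneg B)]
  rw [e]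
  nlinarith [h1, h2, h3, hk1, h8, h9]

open Classical in
/-- the `n < X` that fail for every `l ∈ Λ` -/
noncomputable def bad (Λ : Finset ℕ) (T : ℕ → Finset ℕ) (X : ℕ) : Finset ℕ :=
  (range X).filter (fun n => ∀ l ∈ Λ, ∃ p ∈ T l, n % p ∉ Rc p)

theorem mem_bad {Λ : Finset ℕ} {T : ℕ → Finset ℕ} {X n : ℕ} :
    n ∈ bad Λ T X ↔ n < X ∧ ∀ l ∈ Λ, ∃ p ∈ T l, n % p ∉ Rc p := by
  classical
  unfold bad
  rw [Finset.mem_filter, Finset.mem_range]

theorem cheb (Λ : Finset ℕ) (T : ℕ → Finset ℕ) (X w : ℕ) (B : ℝ) (hB : 1 ≤ B)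
    (hT : ∀ l ∈ Λ, ∀ p ∈ T l, p.Prime ∧ 5 ≤ p) (hw : ∀ l ∈ Λ, (T l).card ≤ w)
    (hTB : ∀ l ∈ Λ, ∏ p ∈ T l, (p : ℝ) ≤ B) (N : ℝ)
    (hN : ∑ l ∈ Λ, ∑ l' ∈ Λ, (if (T l ∩ T l').Nonempty then (1 : ℝ) else 0) ≤ N) :
    ((bad Λ T X).card : ℝ) * (Λ.card : ℝ) ^ 2 ≤
      (X : ℝ) * 4 ^ w * N + (Λ.card : ℝ) ^ 2 * (3 * 4 ^ w * B ^ 2) := by
  classical
  have h1 : ∀ n ∈ bad Λ T X, (∑ l ∈ Λ, (∏ p ∈ T l, cc p n - 1)) ^ 2 = (Λ.card : ℝ) ^ 2 := by
    intro n hn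
    have h2 : ∀ l ∈ Λ, (∏ p ∈ T l, cc p n - 1) = -1 := by
      intro l hl
      obtain ⟨p, hp, hpn⟩ := (mem_bad.1 hn).2 l hl
      have : ∏ p ∈ T l, cc p n = 0 := by
        apply Finset.prod_eq_zero hp
        unfold cc
        rw [if_neg hpn, mul_zero]
      rw [this]; norm_num
    rw [Finset.sum_congr rfl h2, Finset.sum_const, nsmul_eq_mul]
    ring
  have h3 : ((bad Λ T X).card : ℝ) * (Λ.card : ℝ) ^ 2 ≤
      ∑ n ∈ range X, (∑ l ∈ Λ, (∏ p ∈ T l, cc p n - 1)) ^ 2 := by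
    rw [← nsmul_eq_mul, ← Finset.sum_const, ← Finset.sum_congr rfl h1]
    apply Finset.sum_le_sum_of_subset_of_nonneg
    · intro n hn
      exact Finset.mem_range.2 (mem_bad.1 hn).1
    · intro n _ _; positivity
  refine h3.trans ?_
  have h4 : ∑ n ∈ range X, (∑ l ∈ Λ, (∏ p ∈ T l, cc p n - 1)) ^ 2 =
      ∑ l ∈ Λ, ∑ l' ∈ Λ, ∑ n ∈ range X, (∏ p ∈ T l, cc p n - 1) * (∏ p ∈ T l', cc p n - 1) := by
    have : ∀ n, (∑ l ∈ Λ, (∏ p ∈ T l, cc p n - 1)) ^ 2 =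
        ∑ l ∈ Λ, ∑ l' ∈ Λ, (∏ p ∈ T l, cc p n - 1) * (∏ p ∈ T l', cc p n - 1) := by
      intro n
      rw [sq, Finset.sum_mul_sum]
    simp_rw [this]
    rw [Finset.sum_comm]
    apply Finset.sum_congr rfl
    intro l _
    rw [Finset.sum_comm]
  rw [h4]
  have h5 : ∑ l ∈ Λ, ∑ l' ∈ Λ, ∑ n ∈ range X,
      (∏ p ∈ T l, cc p n - 1) * (∏ p ∈ T l', cc p n - 1) ≤
      ∑ l ∈ Λ, ∑ l' ∈ Λ, ((X : ℝ) * (4 ^ w * if (T l ∩ T l').Nonempty then 1 else 0)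
        + 3 * 4 ^ w * B ^ 2) := by
    apply Finset.sum_le_sum
    intro l hl
    apply Finset.sum_le_sum
    intro l' hl'
    exact pair_bound (T l) (T l') (hT l hl) (hT l' hl') X w B hB (hw l hl) (hTB l hl) (hTB l' hl')
  refine h5.trans ?_
  have h6 : ∑ l ∈ Λ, ∑ l' ∈ Λ, ((X : ℝ) * (4 ^ w * if (T l ∩ T l').Nonempty then 1 else 0)
        + 3 * 4 ^ w * B ^ 2) =
      (X : ℝ) * 4 ^ w * ∑ l ∈ Λ, ∑ l' ∈ Λ, (if (T l ∩ T l').Nonempty then (1 : ℝ) else 0) +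
      (Λ.card : ℝ) ^ 2 * (3 * 4 ^ w * B ^ 2) := by
    simp_rw [Finset.sum_add_distrib, ← mul_assoc]
    rw [Finset.mul_sum]
    simp_rw [Finset.mul_sum, Finset.sum_const, nsmul_eq_mul]
    ring
  rw [h6]
  have h7 : (0 : ℝ) ≤ (X : ℝ) * 4 ^ w := by positivity
  have := mul_le_mul_of_nonneg_left hN h7
  linarith

end Pool.H67.TC
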